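import Pool.Agent.R99.Mem.Low

namespace Pool.Agent.R99.Mem

variable {C : Type} [Finite C] {emb : Col → C} {lst : C} {n : ℕ} {pos : Bool → ℕ}

omit [Finite C] in
theorem edge_unique {v : Bool × Fin (3 * n + 3)} (hv : (v.2 : ℕ) ≠ n) (hv2 : (v.2 : ℕ) ≠ 3 * n + 2)
    {e : (Bool × Fin (3 * n + 3)) × C × (Bool × Fin (3 * n + 3))}
    (he : e ∈ edges emb lst n pos) (he2 : e.1 = v) (c : Col) : e = outE emb lst n pos c v := by
  subst he2
  obtain ⟨⟨b, s⟩, c', ⟨b', s'⟩⟩ := e
  simp only at hv hv2
  rcases he with ⟨a1, a2, a3, a4⟩ | ⟨a1, a2, a3, a4⟩ | ⟨a1, a2, a3, a4, a5⟩ | ⟨a1, a2, a3⟩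
  · simp only at a1 a2 a3 a4
    simp only [outE]
    rw [dif_pos a1]
    subst a2
    congr 3
    · exact Fin.ext a3
  · exact absurd a1 hv
  · simp only at a1 a2 a3 a4 a5
    simp only [outE]
    rw [dif_neg (by omega), dif_neg (by omega), dif_pos a2]
    subst a3
    subst a5
    congr 3
    exact Fin.ext a4
  · exact absurd a1 hv2

theorem cons_forced {S : (ar emb lst n pos).Strategy} {u : (ar emb lst n pos).V}
    {q : List (ar emb lst n pos).Edge} (h : Cons S u q) {v : Bool × Fin (3 * n + 3)}
    (hl : (ar emb lst n pos).last u q = v) (hv : (v.2 : ℕ) ≠ n) (hv2 : (v.2 : ℕ) ≠ 3 * n + 2) :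
    Cons S u (q ++ ([outE emb lst n pos Col.p v] : List (ar emb lst n pos).Edge)) := by
  subst hl
  rw [cons_snoc]
  have h1 := outE_mem emb lst n pos Col.p (Or.inl rfl) ((ar emb lst n pos).last u q)
  refine ⟨h, h1.1, h1.2, fun hp => ?_⟩
  have h2 := S.legal u q h.isPath hp
  exact (edge_unique hv hv2 h2.1 h2.2 Col.p).symm

open Classical in
/-- the update of a chromatic memory when reading a basic colour -/
noncomputable def Fc {k : ℕ} (mem : (ar emb lst n pos).Memory (Fin k)) (c : Col) (m : Fin k) :
    Fin k :=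
  if h : ∃ e ∈ (ar emb lst n pos).E, e.2.1 = emb c then mem.upd m h.choose else m

theorem Fc_eq {k : ℕ} {mem : (ar emb lst n pos).Memory (Fin k)} (hc : mem.Chromatic) {c : Col}
    {e : (ar emb lst n pos).Edge} (he : e ∈ (ar emb lst n pos).E) (he2 : e.2.1 = emb c)
    (m : Fin k) : mem.upd m e = Fc mem c m := by
  have h : ∃ e ∈ (ar emb lst n pos).E, e.2.1 = emb c := ⟨e, he, he2⟩
  unfold Fc
  rw [dif_pos h]
  exact hc m e he _ h.choose_spec.1 (he2.trans h.choose_spec.2.symm)

/-- memory state after the first `s` letters -/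
noncomputable def Gs {k : ℕ} (F : Col → Fin k → Fin k) (a : ℕ) : ℕ → Fin k → Fin k
  | 0, m => m
  | s + 1, m => F (w a s) (Gs F a s m)

theorem Gs_le {k : ℕ} (F : Col → Fin k → Fin k) (a : ℕ) (s : ℕ) (hs : s ≤ a) (m : Fin k) :
    Gs F a s m = (F Col.x)^[s] m := by
  induction s with
  | zero => rfl
  | succ s ih =>
    rw [Gs, ih (by omega), Function.iterate_succ_apply']
    congr 1
    simp [w, show s ≠ a by omega]

theorem Gs_gt {k : ℕ} (F : Col → Fin k → Fin k) (a : ℕ) (t : ℕ) (m : Fin k) :
    Gs F a (a + 1 + t) m = (F Col.x)^[t] (F Col.y ((F Col.x)^[a] m)) := by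
  induction t with
  | zero =>
    rw [add_zero, Gs, Gs_le F a a le_rfl]
    simp [w]
  | succ t ih =>
    rw [← add_assoc, Gs, ih, Function.iterate_succ_apply']
    congr 1
    simp [w, show a + 1 + t ≠ a by omega]

theorem Gs_merge {k : ℕ} (F : Col → Fin k → Fin k) (a : ℕ) (ha : k ≤ a) (m : Fin k) :
    Gs F a (a + k.factorial + 1 + k) m = Gs F (a + k.factorial) (a + k.factorial + 1 + k) m := by
  rw [Gs_gt F (a + k.factorial) k m, show a + k.factorial + 1 + k = a + 1 + (k + k.factorial) by ring,
    Gs_gt F a, iter_periodic _ _ k le_rfl, iter_periodic _ _ a ha]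

theorem bad_ext {k : ℕ} {step' : D → C → D} (hemb : ∀ s c, step' s (emb c) = stp s c)
    {mem : (ar emb lst n pos).Memory (Fin k)} (hc : mem.Chromatic)
    {S : (ar emb lst n pos).Strategy} (hS : (ar emb lst n pos).BuiltOn S mem)
    (u : Bool → (ar emb lst n pos).V) (p : Bool → List (ar emb lst n pos).Edge)
    (hp : ∀ b, Cons S (u b) (p b))
    (hlast : ∀ b, (ar emb lst n pos).last (u b) (p b) = (b, (⟨0, by omega⟩ : Fin (3 * n + 3))))
    (hrun : ∀ b, runL step' s0 (p b) = s0) (hst : mem.state (p false) = mem.state (p true))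
    (h1 : k ≤ pos false) (h2 : pos true = pos false + k.factorial)
    (h3 : n = pos true + 1 + k) (h4 : ty (pos false) n ≠ ty (pos true) n) :
    ∃ b p', p b <+: p' ∧ Cons S (u b) p' ∧
      (ar emb lst n pos).last (u b) p' = (false, (⟨3 * n + 2, by omega⟩ : Fin (3 * n + 3))) ∧
      runL step' s0 p' = D.dead := by
  have track : ∀ b s, s ≤ n → ∃ q, p b <+: q ∧ Cons S (u b) q ∧
      (ar emb lst n pos).last (u b) q =
        ((if s < n then b else false), (⟨min s n, by omega⟩ : Fin (3 * n + 3))) ∧
      runL step' s0 q = D.L s (ty (pos b) s) ∧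
      mem.state q = Gs (Fc mem) (pos b) s (mem.state (p b)) := by
    intro b s
    induction s with
    | zero =>
      intro _
      refine ⟨p b, List.prefix_rfl, hp b, ?_, ?_, rfl⟩
      · rw [hlast b, if_pos (by omega)]
        congr 2
      · rw [hrun b, ty_zero]
    | succ s ih =>
      intro hs
      obtain ⟨q, q1, q2, q3, q4, q5⟩ := ih (by omega)
      have hms : min s n = s := by omega
      have hsn : s < n := by omega
      have h5 := cons_forced q2 q3 (by simp only; omega) (by simp only; omega)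
      have h6 := outE_mem emb lst n pos Col.p (Or.inl rfl)
        ((if s < n then b else false), (⟨min s n, by omega⟩ : Fin (3 * n + 3)))
      have h7 : outE emb lst n pos Col.p
          ((if s < n then b else false), (⟨min s n, by omega⟩ : Fin (3 * n + 3))) =
          ((b, ⟨s, by omega⟩), emb (w (pos b) s),
            ((if s + 1 < n then b else false), (⟨s + 1, by omega⟩ : Fin (3 * n + 3)))) := by
        simp only [outE, hms, hsn, if_true, dif_pos]
      rw [h7] at h5 h6
      refine ⟨_, q1.trans (List.prefix_append _ _), h5, ?_, ?_, ?_⟩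
      · rw [last_snoc]
        refine Prod.ext rfl (Fin.ext ?_)
        show s + 1 = min (s + 1) n
        omega
      · rw [runL_snoc, q4]
        simp only
        rw [hemb, stp_w]
      · rw [state_snoc, q5, Fc_eq hc h6.1 rfl]
        rfl
  have hub : ∀ b, ∃ q, p b <+: q ∧ Cons S (u b) q ∧
      (ar emb lst n pos).last (u b) q = (false, (⟨n, by omega⟩ : Fin (3 * n + 3))) ∧
      runL step' s0 q = D.L n (ty (pos b) n) ∧
      mem.state q = Gs (Fc mem) (pos b) n (mem.state (p b)) := by
    intro b
    obtain ⟨q, q1, q2, q3, q4, q5⟩ := track b n le_rfl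
    refine ⟨q, q1, q2, ?_, q4, q5⟩
    rw [q3]
    simp
  choose q q1 q2 q3 q4 q5 using hub
  have hmem : mem.state (q false) = mem.state (q true) := by
    have key := Gs_merge (Fc mem) (pos false) h1 (mem.state (p true))
    have hn : pos false + k.factorial + 1 + k = n := by omega
    rw [hn, ← h2] at key
    rw [q5, q5, hst]
    exact key
  have hprot : ∀ b, (ar emb lst n pos).prot ((ar emb lst n pos).last (u b) (q b)) := by
    intro b
    rw [q3]
    show n ≠ 3 * n + 2
    omega
  have hmove : ∀ b, S.move (u b) (q b) = S.move (u false) (q false) := by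
    intro b
    cases b with
    | false => rfl
    | true =>
      exact (hS _ _ _ _ (q2 false).isPath (q2 true).isPath (hprot false)
        ((q3 false).trans (q3 true).symm) hmem).symm
  have hleg := S.legal _ _ (q2 false).isPath (hprot false)
  rw [q3] at hleg
  set e := S.move (u false) (q false) with he
  obtain ⟨b, hb⟩ : ∃ b, stp (D.L n (ty (pos b) n)) Col.p = D.P (2 * n) ∧ e.2.1 = emb Col.p ∨
      stp (D.L n (ty (pos b) n)) Col.q = D.P (2 * n) ∧ e.2.1 = emb Col.q := by
    have hcol : e.2.1 = emb Col.p ∨ e.2.1 = emb Col.q := by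
      have he1 : (e.1.2 : ℕ) = n := by rw [hleg.2]
      rcases hleg.1 with ⟨a1, _⟩ | ⟨_, a2, _⟩ | ⟨a1, _⟩ | ⟨a1, _⟩
      · omega
      · exact a2
      · omega
      · omega
    rcases hA : ty (pos false) n with _ | _
    · have hB : ty (pos true) n = true := by
        rw [hA] at h4
        cases hh : ty (pos true) n
        · exact absurd hh.symm h4
        · rfl
      rcases hcol with h | h
      · exact ⟨true, Or.inl ⟨by rw [hB]; rfl, h⟩⟩
      · exact ⟨false, Or.inr ⟨by rw [hA]; rfl, h⟩⟩
    · have hB : ty (pos true) n = false := by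
        rw [hA] at h4
        cases hh : ty (pos true) n
        · rfl
        · exact absurd hh.symm h4
      rcases hcol with h | h
      · exact ⟨false, Or.inl ⟨by rw [hA]; rfl, h⟩⟩
      · exact ⟨true, Or.inr ⟨by rw [hB]; rfl, h⟩⟩
  have hst' : step' (D.L n (ty (pos b) n)) e.2.1 = D.P (2 * n) := by
    rcases hb with ⟨a, b⟩ | ⟨a, b⟩
    · rw [b, hemb, a]
    · rw [b, hemb, a]
  have htgt : e.2.2 = (false, (⟨n + 1, by omega⟩ : Fin (3 * n + 3))) := by
    have he1 : (e.1.2 : ℕ) = n := by rw [hleg.2]
    rcases hleg.1 with ⟨a1, _⟩ | ⟨_, _, a3, a4⟩ | ⟨a1, _⟩ | ⟨a1, _⟩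
    · omega
    · exact Prod.ext a4 (Fin.ext a3)
    · omega
    · omega
  have hq' : Cons S (u b) (q b ++ [e]) := by
    rw [cons_snoc]
    refine ⟨q2 b, hleg.1, ?_, fun _ => (hmove b).symm⟩
    rw [hleg.2, q3]
  have tail : ∀ j, j ≤ 2 * n → ∃ p', q b ++ [e] <+: p' ∧ Cons S (u b) p' ∧
      (ar emb lst n pos).last (u b) p' = (false, (⟨min (n + 1 + j) (3 * n + 2), by omega⟩ :
        Fin (3 * n + 3))) ∧ runL step' s0 p' = D.P (2 * n - j) := by
    intro j
    induction j with
    | zero =>
      intro _
      refine ⟨_, List.prefix_rfl, hq', ?_, ?_⟩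
      · rw [last_snoc, htgt]
        congr 2
        omega
      · rw [runL_snoc, q4, hst']; rfl
    | succ j ih =>
      intro hj
      obtain ⟨p', r1, r2, r3, r4⟩ := ih (by omega)
      have hm : min (n + 1 + j) (3 * n + 2) = n + 1 + j := by omega
      have h5 := cons_forced r2 r3 (by simp only; omega) (by simp only; omega)
      have h7 : outE emb lst n pos Col.p
          (false, (⟨min (n + 1 + j) (3 * n + 2), by omega⟩ : Fin (3 * n + 3))) =
          ((false, ⟨n + 1 + j, by omega⟩), emb Col.t,
            (false, (⟨n + 1 + j + 1, by omega⟩ : Fin (3 * n + 3)))) := by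
        simp only [outE, hm]
        rw [dif_neg (by omega), dif_neg (by omega), dif_pos (by omega)]
      rw [h7] at h5
      refine ⟨_, r1.trans (List.prefix_append _ _), h5, ?_, ?_⟩
      · rw [last_snoc]
        refine Prod.ext rfl (Fin.ext ?_)
        show n + 1 + j + 1 = min (n + 1 + (j + 1)) (3 * n + 2)
        omega
      · rw [runL_snoc, r4]
        simp only
        rw [hemb, show 2 * n - j = (2 * n - (j + 1)) + 1 by omega]
        rfl
  obtain ⟨p', r1, r2, r3, r4⟩ := tail (2 * n) le_rfl
  have hm : min (n + 1 + 2 * n) (3 * n + 2) = 3 * n + 1 := by omega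
  have h5 := cons_forced r2 r3 (by simp only; omega) (by simp only; omega)
  have h7 : outE emb lst n pos Col.p
      (false, (⟨min (n + 1 + 2 * n) (3 * n + 2), by omega⟩ : Fin (3 * n + 3))) =
      ((false, ⟨3 * n + 1, by omega⟩), emb Col.t,
        (false, (⟨3 * n + 2, by omega⟩ : Fin (3 * n + 3)))) := by
    simp only [outE, hm]
    rw [dif_neg (by omega), dif_neg (by omega), dif_pos (by omega)]
  rw [h7] at h5
  refine ⟨b, _, ((q1 b).trans (List.prefix_append _ _)).trans
    (r1.trans (List.prefix_append _ _)), h5, ?_, ?_⟩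
  · rw [last_snoc]
  · rw [runL_snoc, r4]
    simp only
    rw [hemb]
    simp [stp]

/-- the parameters used against memory structures with `k` states -/
def posk (k : ℕ) (b : Bool) : ℕ :=
  if b then 2 ^ (k.factorial + k) + k.factorial else 2 ^ (k.factorial + k)

def nk (k : ℕ) : ℕ := 2 ^ (k.factorial + k) + k.factorial + 1 + k

theorem posk_spec (k : ℕ) : k ≤ posk k false ∧ posk k true = posk k false + k.factorial ∧
    nk k = posk k true + 1 + k ∧ ty (posk k false) (nk k) ≠ ty (posk k true) (nk k) := by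
  have h1 : k.factorial + k < 2 ^ (k.factorial + k) := Nat.lt_two_pow_self
  refine ⟨?_, rfl, rfl, ?_⟩
  · simp only [posk]; simp only [Bool.false_eq_true, if_false]; omega
  · unfold ty
    have h2 : pw (posk k false) = true := by simp only [posk]; exact pw_pow _
    have h3 : pw (posk k true) = false := by
      simp only [posk, if_true]
      exact pw_add (Nat.factorial_pos k) (by omega)
    have h4 : ¬ nk k ≤ posk k false := by
      simp only [posk, nk, Bool.false_eq_true, if_false]; omega
    have h5 : ¬ nk k ≤ posk k true := by simp only [posk, nk, if_true]; omega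
    rw [if_neg h4, if_neg h5, h2, h3]
    cases T (nk k) <;> simp

end Pool.Agent.R99.Mem
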