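import Pool.Agent.R99.Mem.Defs

namespace Pool.Agent.R99.Mem

variable {C : Type} {A : Arena C}

theorem genMem_lt {W : Set (ℕ → C)} {k : ℕ} (hk : 0 < k) (h : GenOK W k) : GenMem W < ⊤ :=
  lt_of_le_of_lt (sInf_le ⟨k, hk, rfl, h⟩) (by simp)

theorem chrMem_eq {W : Set (ℕ → C)} (h : ∀ k, ¬ ChrOK W k) : ChrMem W = ⊤ := by
  unfold ChrMem
  have : {k : ℕ∞ | ∃ n : ℕ, 0 < n ∧ k = n ∧ ChrOK W n} = ∅ := by
    ext k
    simp only [Set.mem_ofPred_eq, Set.mem_empty_iff_false, iff_false, not_exists, not_and]
    intro n _ _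
    exact h n
  rw [this, sInf_empty]

theorem last_snoc (u : A.V) (p : List A.Edge) (e : A.Edge) : A.last u (p ++ [e]) = e.2.2 := by
  induction p generalizing u with
  | nil => rfl
  | cons a p ih => exact ih _

theorem isPath_snoc {u : A.V} {p : List A.Edge} {e : A.Edge} :
    A.IsPath u (p ++ [e]) ↔ A.IsPath u p ∧ e ∈ A.E ∧ e.1 = A.last u p := by
  induction p generalizing u with
  | nil => simp [Arena.IsPath, Arena.last]
  | cons a p ih =>
    simp only [List.cons_append, Arena.IsPath, Arena.last, ih]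
    tauto

theorem pre_zero (ρ : ℕ → A.Edge) : A.pre ρ 0 = [] := rfl

theorem pre_succ (ρ : ℕ → A.Edge) (n : ℕ) : A.pre ρ (n + 1) = A.pre ρ n ++ [ρ n] := by
  simp [Arena.pre, List.range_succ]

theorem IsPlay.path {u : A.V} {ρ : ℕ → A.Edge} (h : A.IsPlay u ρ) (n : ℕ) :
    A.IsPath u (A.pre ρ n) ∧ A.last u (A.pre ρ n) = (ρ n).1 := by
  induction n with
  | zero => exact ⟨trivial, h.1.symm⟩
  | succ n ih =>
    rw [pre_succ, last_snoc, isPath_snoc]
    exact ⟨⟨ih.1, h.2.1 n, ih.2.symm⟩, h.2.2 n⟩

theorem state_snoc {M : Type} (m : A.Memory M) (p : List A.Edge) (e : A.Edge) :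
    m.state (p ++ [e]) = m.upd (m.state p) e := by
  simp [Arena.Memory.state]

/-- building a play from a rule -/
theorem play_of_rule {u : A.V} {g : List A.Edge → A.Edge} {L : ℕ → List A.Edge}
    (h0 : L 0 = []) (hs : ∀ n, L (n + 1) = L n ++ [g (L n)])
    (hg : ∀ n, A.IsPath u (L n) → g (L n) ∈ A.E ∧ (g (L n)).1 = A.last u (L n)) :
    A.IsPlay u (fun n => g (L n)) ∧ ∀ n, A.pre (fun n => g (L n)) n = L n := by
  have hp : ∀ n, A.IsPath u (L n) := by
    intro n
    induction n with
    | zero => rw [h0]; trivial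
    | succ n ih =>
      rw [hs, isPath_snoc]
      exact ⟨ih, hg n ih⟩
  refine ⟨⟨?_, fun n => (hg n (hp n)).1, fun n => ?_⟩, fun n => ?_⟩
  · show (g (L 0)).1 = u
    rw [(hg 0 (hp 0)).2, h0]; rfl
  · show (g (L n)).2.2 = (g (L (n + 1))).1
    rw [(hg (n + 1) (hp _)).2, hs, last_snoc]
  · induction n with
    | zero => rw [pre_zero, h0]
    | succ n ih => rw [pre_succ, ih, hs]

/-- finite paths consistent with `S` -/
def Cons (S : A.Strategy) (u : A.V) (p : List A.Edge) : Prop :=
  ∀ n (h : n < p.length), p[n] ∈ A.E ∧ p[n].1 = A.last u (p.take n) ∧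
    (A.prot (A.last u (p.take n)) → p[n] = S.move u (p.take n))

theorem cons_nil (S : A.Strategy) (u : A.V) : Cons S u [] := by
  intro n h; simp at h

theorem cons_snoc {S : A.Strategy} {u : A.V} {p : List A.Edge} {e : A.Edge} :
    Cons S u (p ++ [e]) ↔ Cons S u p ∧ e ∈ A.E ∧ e.1 = A.last u p ∧
      (A.prot (A.last u p) → e = S.move u p) := by
  constructor
  · intro h
    refine ⟨fun n hn => ?_, ?_⟩
    · have := h n (by simp; omega)
      rw [List.getElem_append_left hn, List.take_append_of_le_length hn.le] at this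
      exact this
    · have := h p.length (by simp)
      simpa using this
  · rintro ⟨h1, h2⟩ n hn
    rcases Nat.lt_succ_iff_lt_or_eq.1 (by simpa using hn) with h | h
    · rw [List.getElem_append_left h, List.take_append_of_le_length h.le]
      exact h1 n h
    · subst h
      simpa using h2

theorem Cons.isPath {S : A.Strategy} {u : A.V} {p : List A.Edge} (h : Cons S u p) :
    A.IsPath u p := by
  induction p using List.reverseRecOn with
  | nil => trivial
  | append_singleton p e ih =>
    rw [cons_snoc] at h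
    rw [isPath_snoc]
    exact ⟨ih h.1, h.2.1, h.2.2.1⟩

/-- a rule that continues consistently with `S` -/
noncomputable def defRule (S : A.Strategy) (u : A.V) (l : List A.Edge) : A.Edge :=
  open Classical in
  if A.prot (A.last u l) then S.move u l else (A.out (A.last u l)).choose

theorem defRule_spec (S : A.Strategy) (u : A.V) (l : List A.Edge) (h : A.IsPath u l) :
    defRule S u l ∈ A.E ∧ (defRule S u l).1 = A.last u l ∧
      (A.prot (A.last u l) → defRule S u l = S.move u l) := by
  unfold defRule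
  split_ifs with h1
  · exact ⟨(S.legal u l h h1).1, (S.legal u l h h1).2, fun _ => rfl⟩
  · exact ⟨(A.out (A.last u l)).choose_spec.1, (A.out (A.last u l)).choose_spec.2,
      fun h2 => absurd h2 h1⟩

theorem Follows.cons {S : A.Strategy} {u : A.V} {ρ : ℕ → A.Edge} (h : A.IsPlay u ρ)
    (h2 : A.Follows S u ρ) (n : ℕ) : Cons S u (A.pre ρ n) := by
  induction n with
  | zero => exact cons_nil S u
  | succ n ih =>
    rw [pre_succ, cons_snoc]
    have := IsPlay.path h n
    refine ⟨ih, h.2.1 n, this.2.symm, fun h3 => h2 n ?_⟩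
    rw [← this.2]; exact h3

theorem extend {S : A.Strategy} {u : A.V} {p : List A.Edge} (h : Cons S u p) :
    ∃ ρ, A.IsPlay u ρ ∧ A.Follows S u ρ ∧ A.pre ρ p.length = p := by
  classical
  let g : List A.Edge → A.Edge := fun l =>
    if h : l.length < p.length then p[l.length] else defRule S u l
  let L : ℕ → List A.Edge := fun n => Nat.rec [] (fun _ l => l ++ [g l]) n
  have h0 : L 0 = [] := rfl
  have hs : ∀ n, L (n + 1) = L n ++ [g (L n)] := fun n => rfl
  have hlen : ∀ n, (L n).length = n := by
    intro n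
    induction n with
    | zero => rfl
    | succ n ih => rw [hs]; simp [ih]
  have htake : ∀ n, n ≤ p.length → L n = p.take n := by
    intro n
    induction n with
    | zero => intro _; rfl
    | succ n ih =>
      intro hn
      rw [hs]
      have h1 : g (L n) = p[n] := by
        simp only [g]
        rw [dif_pos (by rw [hlen]; omega)]
        simp only [hlen]
      rw [h1, ih (by omega), List.take_succ_eq_append_getElem (by omega)]
  have hg : ∀ n, A.IsPath u (L n) → g (L n) ∈ A.E ∧ (g (L n)).1 = A.last u (L n) ∧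
      (A.prot (A.last u (L n)) → g (L n) = S.move u (L n)) := by
    intro n hn
    by_cases h1 : n < p.length
    · have h2 : g (L n) = p[n] := by
        simp only [g]
        rw [dif_pos (by rw [hlen]; omega)]
        simp only [hlen]
      rw [h2, htake n h1.le]
      exact h n h1
    · have h2 : g (L n) = defRule S u (L n) := by
        simp only [g]
        rw [dif_neg (by rw [hlen]; omega)]
      rw [h2]
      exact defRule_spec S u (L n) hn
  obtain ⟨h1, h2⟩ := play_of_rule h0 hs (fun n hn => ⟨(hg n hn).1, (hg n hn).2.1⟩)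
  refine ⟨_, h1, fun n hn => ?_, ?_⟩
  · have h3 := IsPlay.path h1 n
    rw [h2] at h3
    rw [h2]
    refine (hg n h3.1).2.2 ?_
    rw [h3.2]; exact hn
  · rw [h2, htake _ le_rfl, List.take_length]

/-- a strategy given by a choice of moves depending on the last node and the memory state -/
theorem exists_strategy {M : Type} (m : A.Memory M) (σ : A.V → M → A.Edge)
    (hσ : ∀ v s, A.prot v → σ v s ∈ A.E ∧ (σ v s).1 = v) :
    ∃ S : A.Strategy, A.BuiltOn S m ∧ ∀ u p, S.move u p = σ (A.last u p) (m.state p) :=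
  ⟨⟨fun u p => σ (A.last u p) (m.state p), fun u p _ h => hσ _ _ h⟩,
    fun u p u' p' _ _ _ h1 h2 => by simp only [h1, h2], fun _ _ => rfl⟩

/-- along a play of such a strategy -/
theorem follows_iff {M : Type} {m : A.Memory M} {σ : A.V → M → A.Edge} {S : A.Strategy}
    (hS : ∀ u p, S.move u p = σ (A.last u p) (m.state p)) {u : A.V} {ρ : ℕ → A.Edge}
    (h : A.IsPlay u ρ) (h2 : A.Follows S u ρ) (n : ℕ) (hn : A.prot (ρ n).1) :
    ρ n = σ (ρ n).1 (m.state (A.pre ρ n)) := by
  have := h2 n hn
  rw [hS, (IsPlay.path h n).2] at this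
  exact this

end Pool.Agent.R99.Mem
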