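import Pool.Agent.R99.Mem.Safe

namespace Pool.Agent.R99.Mem

variable {C D : Type}

/-- minimum of a set of ranks (`⊤` for the empty set) -/
noncomputable def mn (X : Set (WithTop Ordinal.{0})) : WithTop Ordinal.{0} :=
  open Classical in if h : X.Nonempty then wellFounded_lt.min X h else ⊤

theorem mn_mem {X : Set (WithTop Ordinal.{0})} (h : X.Nonempty) : mn X ∈ X := by
  unfold mn
  rw [dif_pos h]
  exact WellFounded.min_mem _ X h

theorem mn_le {X : Set (WithTop Ordinal.{0})} {x : WithTop Ordinal.{0}} (h : x ∈ X) :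
    mn X ≤ x := by
  have h1 : X.Nonempty := ⟨x, h⟩
  unfold mn
  rw [dif_pos h1]
  exact WellFounded.min_le _ h

theorem mn_ne_top {X : Set (WithTop Ordinal.{0})} (h : mn X ≠ ⊤) : mn X ∈ X := by
  by_cases h1 : X.Nonempty
  · exact mn_mem h1
  · unfold mn at h
    rw [dif_neg h1] at h
    exact absurd rfl h

/-- a bad event occurs after the first `a` steps of the path `q` -/
def EvAfter {A : Arena C} (step : D → C → D) (s₀ dead : D) (r : C) (a : ℕ)
    (q : List A.Edge) : Prop :=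
  ∃ i, a ≤ i ∧ ∃ h : i < q.length, runL step s₀ (q.take i) = dead ∧ q[i].2.1 = r

/-- infinite chains of consistent paths with bad events give plays with infinitely many of them -/
theorem chain_play {A : Arena C} {step : D → C → D} {s₀ dead : D} {r : C} {S : A.Strategy}
    {u : A.V} (p : ℕ → List A.Edge) (hp : ∀ n, Cons S u (p n))
    (hc : ∀ n, p n <+: p (n + 1) ∧ EvAfter step s₀ dead r (p n).length (p (n + 1))) :
    ∃ ρ, A.IsPlay u ρ ∧ A.Follows S u ρ ∧
      ∀ N, ∃ n, N ≤ n ∧ run step s₀ (fun n => (ρ n).2.1) n = dead ∧ (ρ n).2.1 = r := by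
  have hpre : ∀ m m', m ≤ m' → p m <+: p m' := by
    intro m m' h
    induction h with
    | refl => exact List.prefix_rfl
    | step _ ih => exact ih.trans (hc _).1
  have hlt : ∀ n, (p n).length < (p (n + 1)).length := by
    intro n
    obtain ⟨i, h1, h2, -⟩ := (hc n).2
    omega
  have hlen : ∀ n, n ≤ (p n).length := by
    intro n
    induction n with
    | zero => omega
    | succ n ih => have := hlt n; omega
  have hget : ∀ m m' i (h : i < (p m).length) (h' : i < (p m').length), (p m)[i] = (p m')[i] := by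
    intro m m' i h h'
    rcases le_total m m' with hm | hm
    · exact (hpre m m' hm).getElem h
    · exact ((hpre m' m hm).getElem h').symm
  have hlen' : ∀ i, i < (p (i + 1)).length := fun i => by have := hlen (i + 1); omega
  let ρ : ℕ → A.Edge := fun i => (p (i + 1))[i]'(hlen' i)
  have hρ : ∀ m i (h : i < (p m).length), ρ i = (p m)[i] := fun m i h => hget _ _ _ _ _
  have htake : ∀ m n, n ≤ (p m).length → A.pre ρ n = (p m).take n := by
    intro m n
    induction n with
    | zero => intro _; rfl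
    | succ n ih =>
      intro h
      rw [pre_succ, ih (by omega), hρ m n (by omega), List.take_succ_eq_append_getElem (by omega)]
  have hcons : ∀ n, ρ n ∈ A.E ∧ (ρ n).1 = A.last u (A.pre ρ n) ∧
      (A.prot (A.last u (A.pre ρ n)) → ρ n = S.move u (A.pre ρ n)) := by
    intro n
    have h1 := hp (n + 1) n (hlen' n)
    rw [← htake (n + 1) n (hlen' n).le] at h1
    exact h1
  refine ⟨ρ, ⟨(hcons 0).2.1, fun n => (hcons n).1, fun n => ?_⟩, fun n hn => ?_, fun N => ?_⟩
  · rw [(hcons (n + 1)).2.1, pre_succ, last_snoc]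
  · refine (hcons n).2.2 ?_
    rw [← (hcons n).2.1]; exact hn
  · obtain ⟨i, h1, h2, h3, h4⟩ := (hc N).2
    refine ⟨i, (hlen N).trans h1, ?_, ?_⟩
    · rw [run_pre, htake (N + 1) i h2.le]; exact h3
    · rw [hρ (N + 1) i h2]; exact h4

/-- the condition: only finitely many bad events -/
def Cob (step : D → C → D) (s₀ dead : D) (r : C) : Set (ℕ → C) :=
  {f | ∃ N, ∀ n, N ≤ n → ¬ (run step s₀ f n = dead ∧ f n = r)}

section rank

variable (A : Arena C) (step : D → C → D) (s₀ dead : D) (r : C)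

/-- the rank does not increase along `e`, and decreases at a bad event -/
def Dec (f : A.V → D → WithTop Ordinal.{0}) (s : D) (e : A.Edge) : Prop :=
  f e.2.2 (step s e.2.1) ≤ f e.1 s ∧ (s = dead ∧ e.2.1 = r → f e.2.2 (step s e.2.1) < f e.1 s)

def Valid (f : A.V → D → WithTop Ordinal.{0}) : Prop :=
  ∀ v s, f v s ≠ ⊤ → (A.prot v → ∃ e ∈ A.E, e.1 = v ∧ Dec A step dead r f s e) ∧
    (¬ A.prot v → ∀ e ∈ A.E, e.1 = v → Dec A step dead r f s e)

/-- the least valid rank -/
noncomputable def Fr (v : A.V) (s : D) : WithTop Ordinal.{0} :=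
  mn {x | ∃ f, Valid A step dead r f ∧ x = f v s}

variable {A step s₀ dead r}

theorem Fr_le {f : A.V → D → WithTop Ordinal.{0}} (h : Valid A step dead r f) (v : A.V) (s : D) :
    Fr A step dead r v s ≤ f v s := mn_le ⟨f, h, rfl⟩

theorem Fr_att (v : A.V) (s : D) : ∃ f, Valid A step dead r f ∧ Fr A step dead r v s = f v s :=
  mn_mem (X := {x | ∃ f, Valid A step dead r f ∧ x = f v s})
    ⟨⊤, fun _ _ => ⊤, fun _ _ h => absurd rfl h, rfl⟩

theorem Fr_valid : Valid A step dead r (Fr A step dead r) := by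
  intro v s hne
  obtain ⟨f, hf, hfe⟩ := Fr_att (A := A) (step := step) (dead := dead) (r := r) v s
  rw [hfe] at hne
  have key : ∀ e : A.Edge, e.1 = v → Dec A step dead r f s e →
      Dec A step dead r (Fr A step dead r) s e := by
    intro e he h
    unfold Dec at h ⊢
    rw [he] at h ⊢
    rw [hfe]
    exact ⟨(Fr_le hf _ _).trans h.1, fun hb => lt_of_le_of_lt (Fr_le hf _ _) (h.2 hb)⟩
  refine ⟨fun hp => ?_, fun hp e he he2 => key e he2 ((hf v s hne).2 hp e he he2)⟩
  obtain ⟨e, he, he2, h⟩ := (hf v s hne).1 hp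
  exact ⟨e, he, he2, key e he2 h⟩

theorem Fr_mono {K : ℕ} (O : Mon step K) (hd : ∀ s, O.le s dead → s = dead) {v : A.V}
    {s s' : D} (h : O.le s s') : Fr A step dead r v s' ≤ Fr A step dead r v s := by
  let g : A.V → D → WithTop Ordinal.{0} := fun v s' =>
    mn {x | ∃ s, O.le s s' ∧ x = Fr A step dead r v s}
  have hg : Valid A step dead r g := by
    intro v s' hne
    obtain ⟨s, hs, hse⟩ := mn_ne_top hne
    have hne' : Fr A step dead r v s ≠ ⊤ := by rw [← hse]; exact hne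
    have key : ∀ e : A.Edge, e.1 = v → Dec A step dead r (Fr A step dead r) s e →
        Dec A step dead r g s' e := by
      intro e he h
      unfold Dec at h ⊢
      rw [he] at h ⊢
      have h1 : g e.2.2 (step s' e.2.1) ≤ Fr A step dead r e.2.2 (step s e.2.1) :=
        mn_le ⟨_, O.mono _ hs, rfl⟩
      have h2 : g v s' = Fr A step dead r v s := hse
      rw [h2]
      refine ⟨h1.trans h.1, fun hb => lt_of_le_of_lt h1 (h.2 ⟨?_, hb.2⟩)⟩
      rw [hb.1] at hs
      exact hd s hs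
    refine ⟨fun hp => ?_, fun hp e he he2 => key e he2 ((Fr_valid v s hne').2 hp e he he2)⟩
    obtain ⟨e, he, he2, h3⟩ := (Fr_valid v s hne').1 hp
    exact ⟨e, he, he2, key e he2 h3⟩
  exact (Fr_le hg v s').trans (mn_le ⟨s, h, rfl⟩)

theorem Fr_wins {S : A.Strategy} {u : A.V} (h : A.WinsFrom (Cob step s₀ dead r) S u) :
    Fr A step dead r u s₀ ≠ ⊤ := by
  let R : {p // Cons S u p} → {p // Cons S u p} → Prop := fun q p =>
    p.1 <+: q.1 ∧ EvAfter step s₀ dead r p.1.length q.1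
  have hwf : WellFounded R := by
    rw [wellFounded_iff_isEmpty_descending_chain]
    refine ⟨fun ⟨p, hp⟩ => ?_⟩
    obtain ⟨ρ, h1, h2, h3⟩ := chain_play (fun n => (p n).1) (fun n => (p n).2) hp
    obtain ⟨N, hN⟩ := h ρ h1 h2
    obtain ⟨n, hn1, hn2⟩ := h3 N
    exact hN n hn1 hn2
  have : IsWellFounded _ R := ⟨hwf⟩
  let rk : {p // Cons S u p} → Ordinal.{0} := IsWellFounded.rank R
  have hrk : ∀ a b, (∀ c, R c a → R c b) → rk a ≤ rk b := by
    intro a b hab
    show IsWellFounded.rank R a ≤ IsWellFounded.rank R b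
    rw [IsWellFounded.rank_eq]
    refine Ordinal.iSup_le (fun c => ?_)
    rw [Order.succ_le_iff]
    exact IsWellFounded.rank_lt_of_rel (hab c.1 c.2)
  let f : A.V → D → WithTop Ordinal.{0} := fun v s =>
    mn {x | ∃ p : {p // Cons S u p}, A.last u p.1 = v ∧ runL step s₀ p.1 = s ∧ x = (rk p : WithTop Ordinal.{0})}
  have hf : Valid A step dead r f := by
    intro v s hne
    obtain ⟨⟨p, hp⟩, hp1, hp2, hp3⟩ := mn_ne_top hne
    have key : ∀ e ∈ A.E, e.1 = v → (A.prot v → e = S.move u p) → Dec A step dead r f s e := by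
      intro e he he2 he3
      have hc : Cons S u (p ++ [e]) := by
        rw [cons_snoc]
        exact ⟨hp, he, by rw [he2, hp1], fun h3 => he3 (by rw [← hp1]; exact h3)⟩
      have h1 : f e.2.2 (step s e.2.1) ≤ rk ⟨p ++ [e], hc⟩ :=
        mn_le ⟨⟨p ++ [e], hc⟩, last_snoc _ _ _, by simp only; rw [runL_snoc, hp2], rfl⟩
      have h2 : f v s = rk ⟨p, hp⟩ := hp3
      unfold Dec
      rw [he2, h2]
      refine ⟨h1.trans (WithTop.coe_le_coe.2 (hrk _ _ ?_)), fun hb => lt_of_le_of_lt h1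
        (WithTop.coe_lt_coe.2 (IsWellFounded.rank_lt_of_rel ?_))⟩
      · rintro ⟨q, hq⟩ ⟨h4, i, h5, h6⟩
        refine ⟨(List.prefix_append _ _).trans h4, i, ?_, h6⟩
        simp only [List.length_append] at h5
        simp only
        omega
      · refine ⟨List.prefix_append _ _, p.length, le_rfl, by simp, ?_, ?_⟩
        · simp only [List.take_left']
          rw [hp2]; exact hb.1
        · simp only [List.getElem_concat_length]
          exact hb.2
    refine ⟨fun hpr => ?_, fun hpr e he he2 => key e he he2 (fun h3 => absurd h3 hpr)⟩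
    have h3 := S.legal u p hp.isPath (by simp only at hp1; rw [hp1]; exact hpr)
    exact ⟨S.move u p, h3.1, by rw [h3.2]; exact hp1, key _ h3.1 (by rw [h3.2]; exact hp1)
      (fun _ => rfl)⟩
  intro htop
  have h1 := Fr_le hf u s₀
  rw [htop] at h1
  have h2 : f u s₀ ≤ rk ⟨[], cons_nil S u⟩ := mn_le ⟨⟨[], cons_nil S u⟩, rfl, rfl, rfl⟩
  exact absurd (h1.trans h2) (by simp)

end rank

open Classical in
/-- co-Buchi conditions with resets, recognised by an ordered monitor with `K` classes -/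
theorem cob_genOK {step : D → C → D} {s₀ dead : D} {r : C} {K : ℕ} (O : Mon step K)
    (hd : ∀ s, O.le s dead → s = dead) (hr : ∀ s, step s r = s₀) :
    GenOK (Cob step s₀ dead r) K := by
  intro A
  let F : A.V → D → WithTop Ordinal.{0} := Fr A step dead r
  let al : A.V → Fin K → WithTop Ordinal.{0} := fun v m => mn {x | ∃ s, O.cls s = m ∧ x = F v s}
  have hmin : ∀ v m, al v m ≠ ⊤ → ∃ s, O.cls s = m ∧ F v s = al v m ∧
      ∀ s', O.cls s' = m → F v s' ≤ al v m → O.le s s' := by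
    intro v m hne
    have hex : ∃ n, ∃ s, O.cls s = m ∧ F v s = al v m ∧ O.idx s = n := by
      obtain ⟨s, hs1, hs2⟩ := mn_ne_top hne
      exact ⟨_, s, hs1, hs2.symm, rfl⟩
    obtain ⟨s', h1, h2, h3⟩ := Nat.find_spec hex
    refine ⟨s', h1, h2, fun s'' h4 h5 => O.comp (h1.trans h4.symm) ?_⟩
    rw [h3]
    exact Nat.find_min' hex ⟨s'', h4, le_antisymm h5 (mn_le ⟨s'', h4, rfl⟩), rfl⟩
  let rep : A.V → Fin K → D := fun v m =>
    if h : al v m ≠ ⊤ then (hmin v m h).choose else dead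
  have hrep : ∀ v m, al v m ≠ ⊤ → F v (rep v m) = al v m ∧
      ∀ s', O.cls s' = m → F v s' ≤ al v m → O.le (rep v m) s' := by
    intro v m h
    have h1 : rep v m = (hmin v m h).choose := by simp only [rep]; rw [dif_pos h]
    rw [h1]
    exact ⟨(hmin v m h).choose_spec.2.1, (hmin v m h).choose_spec.2.2⟩
  let mem : A.Memory (Fin K) := ⟨O.cls s₀, fun m e => O.cls (step (rep e.1 m) e.2.1)⟩
  let σ : A.V → Fin K → A.Edge := fun v m =>
    if h : ∃ e ∈ A.E, e.1 = v ∧ Dec A step dead r F (rep v m) e then h.choose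
    else (A.out v).choose
  have hσ : ∀ v s, A.prot v → σ v s ∈ A.E ∧ (σ v s).1 = v := by
    intro v s _
    simp only [σ]
    split_ifs with h
    · exact ⟨h.choose_spec.1, h.choose_spec.2.1⟩
    · exact (A.out v).choose_spec
  obtain ⟨S, hS1, hS2⟩ := exists_strategy mem σ hσ
  refine ⟨mem, S, hS1, ?_⟩
  rintro u ⟨S', hS'⟩ ρ hρ1 hρ2
  have hu : F u s₀ ≠ ⊤ := Fr_wins hS'
  set x : ℕ → WithTop Ordinal.{0} := fun n => al (ρ n).1 (mem.state (A.pre ρ n)) with hx
  set rp : ℕ → D := fun n => rep (ρ n).1 (mem.state (A.pre ρ n)) with hrp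
  have hm : ∀ n, mem.state (A.pre ρ (n + 1)) = O.cls (step (rp n) (ρ n).2.1) := by
    intro n; rw [pre_succ, state_snoc]
  have hdec : ∀ n, x n ≠ ⊤ → Dec A step dead r F (rp n) (ρ n) := by
    intro n hn
    have h1 := (hrep _ _ hn).1
    have h2 : F (ρ n).1 (rp n) ≠ ⊤ := by rw [h1]; exact hn
    by_cases hp : A.prot (ρ n).1
    · have h3 := (Fr_valid _ _ h2).1 hp
      have h4 := follows_iff hS2 hρ1 hρ2 n hp
      simp only [σ] at h4
      rw [dif_pos h3] at h4
      have h5 := h3.choose_spec.2.2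
      rw [← h4] at h5
      exact h5
    · exact (Fr_valid _ _ h2).2 hp (ρ n) (hρ1.2.1 n) rfl
  have hstep : ∀ n, x n ≠ ⊤ → x (n + 1) ≤ F (ρ (n + 1)).1 (step (rp n) (ρ n).2.1) ∧
      F (ρ (n + 1)).1 (step (rp n) (ρ n).2.1) ≤ x n := by
    intro n hn
    refine ⟨mn_le ⟨_, (hm n).symm, rfl⟩, ?_⟩
    have h1 := (hdec n hn).1
    rw [(hrep _ _ hn).1, hρ1.2.2 n] at h1
    exact h1
  have hxn : ∀ n, x n ≠ ⊤ := by
    intro n
    induction n with
    | zero =>
      have h1 : x 0 ≤ F u s₀ := by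
        have : x 0 ≤ F (ρ 0).1 s₀ := mn_le ⟨s₀, rfl, rfl⟩
        rwa [hρ1.1] at this
      intro h2
      rw [h2, top_le_iff] at h1
      exact hu h1
    | succ n ih =>
      intro h2
      have h3 := (hstep n ih).1.trans (hstep n ih).2
      rw [h2, top_le_iff] at h3
      exact ih h3
  have hanti : Antitone x := antitone_nat_of_succ_le
    (fun n => (hstep n (hxn n)).1.trans (hstep n (hxn n)).2)
  obtain ⟨N, hN⟩ : ∃ N, ∀ n, N ≤ n → x n = x N := by
    have hne : (Set.range x).Nonempty := ⟨x 0, 0, rfl⟩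
    obtain ⟨N, hN⟩ : mn (Set.range x) ∈ Set.range x := mn_mem hne
    refine ⟨N, fun n hn => le_antisymm (hanti hn) ?_⟩
    rw [hN]
    exact mn_le ⟨n, rfl⟩
  have hconst : ∀ n, N ≤ n → O.le (rp (n + 1)) (step (rp n) (ρ n).2.1) ∧
      ¬ (rp n = dead ∧ (ρ n).2.1 = r) := by
    intro n hn
    have h1 := hstep n (hxn n)
    have h2 : x (n + 1) = x n := by rw [hN n hn, hN (n + 1) (by omega)]
    refine ⟨(hrep _ _ (hxn (n + 1))).2 _ (hm n).symm ?_, fun hb => ?_⟩
    · show F (ρ (n + 1)).1 (step (rp n) (ρ n).2.1) ≤ x (n + 1)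
      rw [h2]; exact h1.2
    · have h3 := (hdec n (hxn n)).2 hb
      rw [(hrep _ _ (hxn n)).1, hρ1.2.2 n] at h3
      have h4 : F (ρ (n + 1)).1 (step (rp n) (ρ n).2.1) < x n := h3
      exact absurd (lt_of_le_of_lt h1.1 h4) (by rw [h2]; exact lt_irrefl _)
  show ∃ N, ∀ n, N ≤ n → ¬ (run step s₀ (fun n => (ρ n).2.1) n = dead ∧ (ρ n).2.1 = r)
  by_contra hcon
  push Not at hcon
  obtain ⟨n₁, hn₁, hb1, hb2⟩ := hcon N
  have hinv : ∀ d, O.le (rp (n₁ + 1 + d)) (run step s₀ (fun n => (ρ n).2.1) (n₁ + 1 + d)) := by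
    intro d
    induction d with
    | zero =>
      have h1 := (hconst n₁ hn₁).1
      rw [hb2, hr] at h1
      have h2 : run step s₀ (fun n => (ρ n).2.1) (n₁ + 1) = s₀ := by
        show step _ (ρ n₁).2.1 = s₀
        rw [hb2, hr]
      rw [add_zero, h2]
      exact h1
    | succ d ih =>
      have h1 := (hconst (n₁ + 1 + d) (by omega)).1
      exact O.trans h1 (O.mono _ ih)
  obtain ⟨n₂, hn₂, hc1, hc2⟩ := hcon (n₁ + 1)
  obtain ⟨d, rfl⟩ : ∃ d, n₂ = n₁ + 1 + d := ⟨n₂ - (n₁ + 1), by omega⟩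
  have h1 := hinv d
  rw [hc1] at h1
  exact (hconst (n₁ + 1 + d) (by omega)).2 ⟨hd _ h1, hc2⟩

end Pool.Agent.R99.Mem
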