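import Mathlib

namespace Pool.Agent.R99.Mem

/-- An arena over the set of colours `C`: a finite non-empty set of nodes `V`, a node `v`
belonging to Protagonist if `prot v` holds and to Antagonist otherwise, and a finite set `E` of
edges (source, colour, target) such that every node has an outgoing edge. -/
structure Arena (C : Type) where
  V : Type
  finV : Finite V
  neV : Nonempty V
  prot : V → Prop
  E : Set (V × C × V)
  finE : E.Finite
  out : ∀ v, ∃ e ∈ E, e.1 = v

variable {C : Type}

/-- the triples (source, colour, target) -/
abbrev Arena.Edge (A : Arena C) : Type := A.V × C × A.V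

/-- the last node of the path which starts at the given node and follows the given edges -/
def Arena.last (A : Arena C) : A.V → List A.Edge → A.V
  | u, [] => u
  | _, e :: p => A.last e.2.2 p

/-- the list of edges is a (finite, possibly empty) path starting at the given node -/
def Arena.IsPath (A : Arena C) : A.V → List A.Edge → Prop
  | _, [] => True
  | u, e :: p => e ∈ A.E ∧ e.1 = u ∧ A.IsPath e.2.2 p

/-- A Protagonist strategy: to every finite path `p` starting at a node `u` and ending at a node
of Protagonist it assigns an outgoing edge of its last node (values at other arguments are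
irrelevant). -/
structure Arena.Strategy (A : Arena C) where
  move : A.V → List A.Edge → A.Edge
  legal : ∀ u p, A.IsPath u p → A.prot (A.last u p) →
    move u p ∈ A.E ∧ (move u p).1 = A.last u p

/-- an infinite play from `u` -/
def Arena.IsPlay (A : Arena C) (u : A.V) (ρ : ℕ → A.Edge) : Prop :=
  (ρ 0).1 = u ∧ (∀ n, ρ n ∈ A.E) ∧ ∀ n, (ρ n).2.2 = (ρ (n + 1)).1

/-- the first `n` edges of an infinite play -/
def Arena.pre (A : Arena C) (ρ : ℕ → A.Edge) (n : ℕ) : List A.Edge := (List.range n).map ρ

/-- the play `ρ` from `u` is consistent with the strategy `S` -/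
def Arena.Follows (A : Arena C) (S : A.Strategy) (u : A.V) (ρ : ℕ → A.Edge) : Prop :=
  ∀ n, A.prot (ρ n).1 → ρ n = S.move u (A.pre ρ n)

/-- the strategy `S` is winning from `u` for the winning condition `W` -/
def Arena.WinsFrom (A : Arena C) (W : Set (ℕ → C)) (S : A.Strategy) (u : A.V) : Prop :=
  ∀ ρ, A.IsPlay u ρ → A.Follows S u ρ → (fun n => (ρ n).2.1) ∈ W

/-- `S` wins from every node from which some Protagonist strategy wins -/
def Arena.Optimal (A : Arena C) (W : Set (ℕ → C)) (S : A.Strategy) : Prop :=
  ∀ u, (∃ S' : A.Strategy, A.WinsFrom W S' u) → A.WinsFrom W S u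

/-- a memory structure with set of states `M`, initial state and update function -/
structure Arena.Memory (A : Arena C) (M : Type) where
  init : M
  upd : M → A.Edge → M

/-- the memory state after a finite sequence of edges -/
def Arena.Memory.state {A : Arena C} {M : Type} (m : A.Memory M) (p : List A.Edge) : M :=
  p.foldl m.upd m.init

/-- the update depends only on the memory state and the colour of the edge -/
def Arena.Memory.Chromatic {A : Arena C} {M : Type} (m : A.Memory M) : Prop :=
  ∀ s, ∀ e ∈ A.E, ∀ e' ∈ A.E, e.2.1 = e'.2.1 → m.upd s e = m.upd s e'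

/-- the move of `S` depends only on the last node and the memory state -/
def Arena.BuiltOn (A : Arena C) {M : Type} (S : A.Strategy) (m : A.Memory M) : Prop :=
  ∀ u p u' p', A.IsPath u p → A.IsPath u' p' → A.prot (A.last u p) →
    A.last u p = A.last u' p' → m.state p = m.state p' → S.move u p = S.move u' p'

/-- every arena over `C` has an optimal Protagonist strategy for `W` with `k` states of general
memory -/
def GenOK (W : Set (ℕ → C)) (k : ℕ) : Prop :=
  ∀ A : Arena C, ∃ m : A.Memory (Fin k), ∃ S : A.Strategy, A.BuiltOn S m ∧ A.Optimal W S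

/-- every arena over `C` has an optimal Protagonist strategy for `W` with `k` states of chromatic
memory -/
def ChrOK (W : Set (ℕ → C)) (k : ℕ) : Prop :=
  ∀ A : Arena C, ∃ m : A.Memory (Fin k), m.Chromatic ∧
    ∃ S : A.Strategy, A.BuiltOn S m ∧ A.Optimal W S

/-- `GenMem W`: the least positive `k` such that `k` states of general memory suffice in every
arena (`⊤` if there is none) -/
noncomputable def GenMem (W : Set (ℕ → C)) : ℕ∞ :=
  sInf {k : ℕ∞ | ∃ n : ℕ, 0 < n ∧ k = n ∧ GenOK W n}

/-- `ChrMem W`: the same with chromatic memory -/
noncomputable def ChrMem (W : Set (ℕ → C)) : ℕ∞ :=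
  sInf {k : ℕ∞ | ∃ n : ℕ, 0 < n ∧ k = n ∧ ChrOK W n}

end Pool.Agent.R99.Mem
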