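import Pool.Agent.R99.Mem.Sep

namespace Pool.Agent.R99.Mem

variable {C : Type} [Finite C] {emb : Col → C} {lst : C} {n : ℕ} {pos : Bool → ℕ}

/-- the invariant of the winning strategy -/
def Inv (n : ℕ) (pos : Bool → ℕ) (v : Bool × Fin (3 * n + 3)) (m : Bool) (d : D) : Prop :=
  ((v.2 : ℕ) < n → d = D.L v.2 (ty (pos v.1) v.2) ∨ d = D.top) ∧
  ((v.2 : ℕ) = n → d = D.L n (ty (pos m) n) ∨ d = D.top) ∧
  (n < (v.2 : ℕ) → d = D.P (3 * n + 2 - v.2) ∨ d = D.top)

/-- the good colour at the hub -/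
def good (n : ℕ) (pos : Bool → ℕ) (m : Bool) : Col := if ty (pos m) n then Col.q else Col.p

theorem good_cases (n : ℕ) (pos : Bool → ℕ) (m : Bool) :
    good n pos m = Col.p ∨ good n pos m = Col.q := by
  unfold good; split_ifs <;> simp

omit [Finite C] in
theorem inv_step {step' : D → C → D} (hemb : ∀ s c, step' s (emb c) = stp s c)
    (hl : ∀ d, (d = D.P 0 ∨ d = D.top) → step' d lst = s0 ∨ step' d lst = D.top)
    (hn : 0 < n) {e : (Bool × Fin (3 * n + 3)) × C × (Bool × Fin (3 * n + 3))}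
    (he : e ∈ edges emb lst n pos) {m : Bool} {d : D} (h : Inv n pos e.1 m d)
    (hh : (e.1.2 : ℕ) = n → e.2.1 = emb (good n pos m)) :
    Inv n pos e.2.2 (if (e.1.2 : ℕ) < n then e.1.1 else m) (step' d e.2.1) := by
  obtain ⟨⟨b, s⟩, c, ⟨b', s'⟩⟩ := e
  obtain ⟨h1, h2, h3⟩ := h
  simp only at h1 h2 h3 hh ⊢
  have hs := s.2
  have hs' := s'.2
  rcases he with ⟨a1, a2, a3, a4⟩ | ⟨a1, a2, a3, a4⟩ | ⟨a1, a2, a3, a4, a5⟩ | ⟨a1, a2, a3⟩
  · simp only at a1 a2 a3 a4
    subst a2
    rw [if_pos a1, hemb]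
    rcases h1 a1 with rfl | rfl
    · refine ⟨fun h4 => Or.inl ?_, fun h4 => Or.inl ?_, fun h4 => by simp only at h4; omega⟩
      · simp only at h4 ⊢
        rw [a4, if_pos (by omega), stp_w, a3]
      · simp only at h4 ⊢
        rw [stp_w]
        have : (s : ℕ) + 1 = n := by omega
        rw [this]
    · exact ⟨fun _ => Or.inr rfl, fun _ => Or.inr rfl, fun _ => Or.inr rfl⟩
  · simp only at a1 a3 a4
    have h5 := hh a1
    subst h5
    rw [if_neg (by omega), hemb]
    rcases h2 a1 with rfl | rfl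
    · refine ⟨fun h4 => by simp only at h4; omega, fun h4 => by simp only at h4; omega,
        fun h4 => Or.inl ?_⟩
      simp only
      have e1 : 3 * n + 2 - (s' : ℕ) = 2 * n + 1 := by omega
      rw [e1]
      unfold good
      rcases ty (pos m) n with _ | _
      · rfl
      · rfl
    · refine ⟨fun _ => Or.inr ?_, fun _ => Or.inr ?_, fun _ => Or.inr ?_⟩ <;> rfl
  · simp only at a1 a2 a3 a4 a5
    subst a3
    rw [if_neg (by omega), hemb]
    rcases h3 a1 with rfl | rfl
    · refine ⟨fun h4 => by simp only at h4; omega, fun h4 => by simp only at h4; omega,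
        fun h4 => Or.inl ?_⟩
      simp only
      have e1 : 3 * n + 2 - (s : ℕ) = (3 * n + 2 - (s' : ℕ)) + 1 := by omega
      rw [e1]
      rfl
    · refine ⟨fun _ => Or.inr ?_, fun _ => Or.inr ?_, fun _ => Or.inr ?_⟩ <;> rfl
  · simp only at a1 a2 a3
    subst a2
    rw [if_neg (by omega)]
    have h4 : d = D.P 0 ∨ d = D.top := by
      rcases h3 (by omega) with h | h
      · left; rw [h]; congr 1; omega
      · exact Or.inr h
    refine ⟨fun h5 => ?_, fun h5 => by simp only at h5; omega, fun h5 => by simp only at h5; omega⟩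
    simp only
    rw [a3, ty_zero]
    exact hl d h4

/-- Protagonist has a strategy such that the monitor state is never `dead` -/
theorem exists_good {step' : D → C → D} (hemb : ∀ s c, step' s (emb c) = stp s c)
    (hl : ∀ d, (d = D.P 0 ∨ d = D.top) → step' d lst = s0 ∨ step' d lst = D.top)
    (hn : 0 < n) : ∃ S : (ar emb lst n pos).Strategy, ∀ u : (ar emb lst n pos).V,
      (u.2 : ℕ) = 0 → ∀ ρ, (ar emb lst n pos).IsPlay u ρ → (ar emb lst n pos).Follows S u ρ →
      ∀ k, run step' s0 (fun k => (ρ k).2.1) k ≠ D.dead := by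
  let mem : (ar emb lst n pos).Memory Bool := ⟨false, fun m e => if (e.1.2 : ℕ) < n then e.1.1 else m⟩
  let σ : (ar emb lst n pos).V → Bool → (ar emb lst n pos).Edge :=
    fun v m => outE emb lst n pos (good n pos m) v
  obtain ⟨S, -, hS⟩ := exists_strategy mem σ
    (fun v m _ => outE_mem emb lst n pos (good n pos m) (good_cases n pos m) v)
  refine ⟨S, fun u hu ρ h1 h2 => ?_⟩
  have inv : ∀ k, Inv n pos (ρ k).1 (mem.state ((ar emb lst n pos).pre ρ k))
      (run step' s0 (fun k => (ρ k).2.1) k) := by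
    intro k
    induction k with
    | zero =>
      have h3 : ((ρ 0).1.2 : ℕ) = 0 := by rw [h1.1]; exact hu
      refine ⟨fun _ => Or.inl ?_, fun h4 => by omega, fun h4 => by omega⟩
      rw [h3, ty_zero]
      rfl
    | succ k ih =>
      have h3 := inv_step hemb hl hn (h1.2.1 k) ih (fun h4 => ?_)
      · rw [← h1.2.2 k, pre_succ, state_snoc]
        exact h3
      · have h5 := follows_iff hS h1 h2 k (by show ((ρ k).1.2 : ℕ) ≠ 3 * n + 2; omega)
        have h6 : (ρ k).2.1 = (σ (ρ k).1 (mem.state ((ar emb lst n pos).pre ρ k))).2.1 := by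
          rw [← h5]
        rw [h6]
        simp only [σ, outE]
        rw [dif_neg (by omega), dif_pos h4]
  intro k hk
  have h3 := inv k
  rw [hk] at h3
  obtain ⟨a1, a2, a3⟩ := h3
  rcases lt_trichotomy ((ρ k).1.2 : ℕ) n with h | h | h
  · rcases a1 h with h' | h' <;> exact absurd h' (by simp)
  · rcases a2 h with h' | h' <;> exact absurd h' (by simp)
  · rcases a3 h with h' | h' <;> exact absurd h' (by simp)

end Pool.Agent.R99.Mem
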