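import Pool.Agent.R99.Mem.Ord

namespace Pool.Agent.R99.Mem

variable {A : Arena Col}

/-- replacing the set of memory states by `Fin k` -/
theorem exists_fin {C : Type} {A : Arena C} {M : Type} [Fintype M] (m : A.Memory M)
    {S : A.Strategy} (h : A.BuiltOn S m) :
    ∃ m' : A.Memory (Fin (Fintype.card M)), A.BuiltOn S m' := by
  let f := Fintype.equivFin M
  let m' : A.Memory (Fin (Fintype.card M)) := ⟨f m.init, fun s e => f (m.upd (f.symm s) e)⟩
  have hs : ∀ p, m'.state p = f (m.state p) := by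
    intro p
    induction p using List.reverseRecOn with
    | nil => rfl
    | append_singleton p e ih => rw [state_snoc, state_snoc, ih]; simp [m']
  refine ⟨m', fun u p u' p' h1 h2 h3 h4 h5 => h u p u' p' h1 h2 h3 h4 ?_⟩
  rw [hs, hs] at h5
  exact f.injective h5

/-- Protagonist can force the state `dead` -/
inductive Att (A : Arena Col) : A.V → D → Prop
  | dead (v : A.V) : Att A v D.dead
  | prot (v : A.V) (s : D) (h : A.prot v) (e : A.Edge) (he : e ∈ A.E) (he2 : e.1 = v)
      (h2 : Att A e.2.2 (stp s e.2.1)) : Att A v s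
  | ant (v : A.V) (s : D) (h : ¬ A.prot v)
      (h2 : ∀ e ∈ A.E, e.1 = v → Att A e.2.2 (stp s e.2.1)) : Att A v s

theorem Att.mono {v : A.V} {s : D} (h : Att A v s) : ∀ s', Dle s' s → Att A v s' := by
  induction h with
  | dead v => intro s' hs; rw [Dle_dead hs]; exact Att.dead v
  | prot v s h e he he2 _ ih =>
    intro s' hs
    exact Att.prot v s' h e he he2 (ih _ (Dle_mono _ hs))
  | ant v s h _ ih =>
    intro s' hs
    exact Att.ant v s' h (fun e he hv => ih e he hv _ (Dle_mono _ hs))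

theorem Att.ne_top {v : A.V} {s : D} (h : Att A v s) : s ≠ D.top := by
  induction h with
  | dead v => simp
  | prot v s h e he he2 _ ih => rintro rfl; exact ih rfl
  | ant v s h _ ih =>
    rintro rfl
    obtain ⟨e, he, hv⟩ := A.out v
    exact ih e he hv rfl

/-- if a strategy wins for reaching `dead` then `Att` -/
theorem att_of_wins {S : A.Strategy} {u : A.V} (h : A.WinsFrom W₀ᶜ S u) : Att A u s0 := by
  classical
  by_contra hu
  let g : List A.Edge → A.Edge := fun l =>
    if A.prot (A.last u l) then S.move u l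
    else if h : ∃ e ∈ A.E, e.1 = A.last u l ∧ ¬ Att A e.2.2 (stp (runL stp s0 l) e.2.1) then
      h.choose else (A.out (A.last u l)).choose
  let L : ℕ → List A.Edge := fun n => Nat.rec [] (fun _ l => l ++ [g l]) n
  have h0 : L 0 = [] := rfl
  have hs : ∀ n, L (n + 1) = L n ++ [g (L n)] := fun n => rfl
  have hg : ∀ l, A.IsPath u l → g l ∈ A.E ∧ (g l).1 = A.last u l := by
    intro l hl
    simp only [g]
    split_ifs with h1 h2
    · exact S.legal u l hl h1
    · exact ⟨h2.choose_spec.1, h2.choose_spec.2.1⟩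
    · exact (A.out (A.last u l)).choose_spec
  obtain ⟨h1, h2⟩ := play_of_rule h0 hs (fun n hn => hg _ hn)
  have inv : ∀ n, ¬ Att A (A.last u (L n)) (runL stp s0 (L n)) := by
    intro n
    induction n with
    | zero => exact hu
    | succ n ih =>
      have h3 := IsPlay.path h1 n
      rw [h2] at h3
      rw [hs, last_snoc, runL_snoc]
      intro h4
      apply ih
      by_cases hp : A.prot (A.last u (L n))
      · exact Att.prot _ _ hp _ (hg _ h3.1).1 (hg _ h3.1).2 h4
      · by_cases h5 : ∃ e ∈ A.E, e.1 = A.last u (L n) ∧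
            ¬ Att A e.2.2 (stp (runL stp s0 (L n)) e.2.1)
        · exfalso
          have h6 : g (L n) = h5.choose := by
            simp only [g]
            rw [if_neg hp, dif_pos h5]
          rw [h6] at h4
          exact h5.choose_spec.2.2 h4
        · push Not at h5
          exact Att.ant _ _ hp h5
  have hf : A.Follows S u (fun n => g (L n)) := by
    intro n hn
    have h3 := IsPlay.path h1 n
    rw [h2] at h3 ⊢
    have hp : A.prot (A.last u (L n)) := by rw [h3.2]; exact hn
    simp only [g]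
    rw [if_pos hp]
  apply h _ h1 hf
  intro n hn
  rw [run_pre, h2] at hn
  apply inv n
  rw [hn]
  exact Att.dead _

/-- all `P j` are winning at `v` -/
def PInf (A : Arena Col) (v : A.V) : Prop := ∀ j, Att A v (D.P j)

theorem att_P_le {v : A.V} {i j : ℕ} (h : i ≤ j) (h2 : Att A v (D.P j)) : Att A v (D.P i) :=
  h2.mono _ h

theorem stp_P_ne {j : ℕ} {c : Col} (hc : c ≠ Col.t) : stp (D.P j) c = D.top := by
  cases c <;> cases j <;> first | rfl | exact absurd rfl hc

theorem att_P_ant {v : A.V} {j : ℕ} (h : Att A v (D.P j)) (hv : ¬ A.prot v) {e : A.Edge}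
    (he : e ∈ A.E) (he2 : e.1 = v) : e.2.1 = Col.t ∧ Att A e.2.2 (stp (D.P j) Col.t) := by
  cases h with
  | prot _ _ h => exact absurd h hv
  | ant _ _ _ h2 =>
    have h3 := h2 e he he2
    by_cases hc : e.2.1 = Col.t
    · exact ⟨hc, hc ▸ h3⟩
    · rw [stp_P_ne hc] at h3
      exact absurd rfl h3.ne_top

theorem att_P_prot {v : A.V} {j : ℕ} (h : Att A v (D.P j)) (hv : A.prot v) :
    ∃ e ∈ A.E, e.1 = v ∧ e.2.1 = Col.t ∧ Att A e.2.2 (stp (D.P j) Col.t) := by
  cases h with
  | prot _ _ h e he he2 h3 =>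
    by_cases hc : e.2.1 = Col.t
    · exact ⟨e, he, he2, hc, hc ▸ h3⟩
    · rw [stp_P_ne hc] at h3
      exact absurd rfl h3.ne_top
  | ant _ _ h => exact absurd hv h

theorem exists_bound_edges (A : Arena Col) {Q : A.Edge → ℕ → Prop}
    (hQ : ∀ e ∈ A.E, ∃ n, Q e n) (hm : ∀ e m n, m ≤ n → Q e m → Q e n) :
    ∃ N, ∀ e ∈ A.E, Q e N := by
  classical
  let f : A.Edge → ℕ := fun e => if h : e ∈ A.E then (hQ e h).choose else 0
  have hf : ∀ e ∈ A.E, Q e (f e) := by
    intro e he
    have : f e = (hQ e he).choose := by simp only [f]; rw [dif_pos he]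
    rw [this]
    exact (hQ e he).choose_spec
  refine ⟨A.finE.toFinset.sup f, fun e he => hm e _ _ ?_ (hf e he)⟩
  exact Finset.le_sup (f := f) (A.finE.mem_toFinset.2 he)

theorem Pmove {v : A.V} (hv : A.prot v) (h : ∃ j, Att A v (D.P j)) :
    ∃ e ∈ A.E, e.1 = v ∧ e.2.1 = Col.t ∧
      ∀ j, Att A v (D.P j) → Att A e.2.2 (stp (D.P j) Col.t) := by
  classical
  by_cases hinf : PInf A v
  · by_contra hcon
    push Not at hcon
    obtain ⟨N, hN⟩ := exists_bound_edges A
      (Q := fun e n => e.1 = v → e.2.1 = Col.t → ¬ Att A e.2.2 (D.P n)) (fun e he0 => by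
        by_cases he : e.1 = v ∧ e.2.1 = Col.t
        · obtain ⟨j, -, hj⟩ := hcon e he0 he.1 he.2
          refine ⟨j, fun _ _ h3 => hj (h3.mono _ ?_)⟩
          cases j with
          | zero => exact Dle_bot _
          | succ j => simp [stp, Dle]
        · exact ⟨0, fun h1 h2 => absurd ⟨h1, h2⟩ he⟩)
      (fun e m n hmn h1 h2 h3 h4 => h1 h2 h3 (att_P_le hmn h4))
    obtain ⟨e, he, he2, he3, he4⟩ := att_P_prot (hinf (N + 1)) hv
    exact hN e he he2 he3 he4
  · have hex : ∃ j, ¬ Att A v (D.P j) := by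
      by_contra h3
      push Not at h3
      exact hinf h3
    have h1 := Nat.find_spec hex
    set J := Nat.find hex with hJ
    obtain ⟨j₀, hj₀⟩ := h
    have hJpos : 0 < J := by
      by_contra h3
      have : J = 0 := by omega
      rw [this] at h1
      exact h1 (att_P_le (Nat.zero_le _) hj₀)
    have h2 : Att A v (D.P (J - 1)) := by
      have := Nat.find_min hex (m := J - 1) (by omega)
      simpa using this
    obtain ⟨e, he, he2, he3, he4⟩ := att_P_prot h2 hv
    refine ⟨e, he, he2, he3, fun j hj => he4.mono _ (Dle_mono _ ?_)⟩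
    show j ≤ J - 1
    by_contra h3
    exact h1 (att_P_le (by omega) hj)

theorem exists_K (A : Arena Col) : ∃ K, ∀ v j, K ≤ j → Att A v (D.P j) → PInf A v := by
  classical
  have := A.finV
  have := Fintype.ofFinite A.V
  have h : ∀ v, ∃ k, ∀ j, k ≤ j → Att A v (D.P j) → PInf A v := by
    intro v
    by_cases hinf : PInf A v
    · exact ⟨0, fun _ _ _ => hinf⟩
    · have hex : ∃ j, ¬ Att A v (D.P j) := by
        by_contra h3
        push Not at h3
        exact hinf h3
      obtain ⟨k, hk⟩ := hex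
      exact ⟨k, fun j hj h2 => absurd (att_P_le hj h2) hk⟩
  choose f hf using h
  refine ⟨Finset.univ.sup f, fun v j hj => hf v j (le_trans ?_ hj)⟩
  exact Finset.le_sup (f := f) (Finset.mem_univ v)

/-- the edge leads out of the first mode to a node with `PInf`, or stays in the first mode -/
def OkE (A : Arena Col) (Q : A.V → Prop) (e : A.Edge) : Prop :=
  ((e.2.1 = Col.p ∨ e.2.1 = Col.q) ∧ PInf A e.2.2) ∨
    ((e.2.1 = Col.x ∨ e.2.1 = Col.y) ∧ Q e.2.2)

/-- stages of the attractor -/
def AL (A : Arena Col) : ℕ → A.V → Prop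
  | 0, _ => False
  | n + 1, v => (A.prot v ∧ ∃ e ∈ A.E, e.1 = v ∧ OkE A (AL A n) e) ∨
      (¬ A.prot v ∧ ∀ e ∈ A.E, e.1 = v → OkE A (AL A n) e)

theorem OkE.mono {P Q : A.V → Prop} (h : ∀ v, P v → Q v) {e : A.Edge} (he : OkE A P e) :
    OkE A Q e := by
  rcases he with he | he
  · exact Or.inl he
  · exact Or.inr ⟨he.1, h _ he.2⟩

theorem AL_succ (n : ℕ) : ∀ v, AL A n v → AL A (n + 1) v := by
  induction n with
  | zero => intro v h; exact absurd h (by simp [AL])
  | succ n ih =>
    intro v h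
    rcases h with ⟨h1, e, he, he2, h2⟩ | ⟨h1, h2⟩
    · exact Or.inl ⟨h1, e, he, he2, h2.mono ih⟩
    · exact Or.inr ⟨h1, fun e he he2 => (h2 e he he2).mono ih⟩

theorem AL_le {m n : ℕ} (h : m ≤ n) {v : A.V} (hv : AL A m v) : AL A n v := by
  induction h with
  | refl => exact hv
  | step _ ih => exact AL_succ _ _ ih

theorem AL_of_att {K : ℕ} (hK : ∀ v j, K ≤ j → Att A v (D.P j) → PInf A v) {v : A.V} {s : D}
    (h : Att A v s) : ∀ i τ, s = D.L i τ → K ≤ i → ∃ n, AL A n v := by
  induction h with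
  | dead v => intro i τ h; exact absurd h (by simp)
  | prot v s h e he he2 h3 ih =>
    rintro i τ rfl hi
    rcases hc : e.2.1 with _ | _ | _ | _ | _ <;> rw [hc] at h3 ih
    · obtain ⟨n, hn⟩ := ih _ _ rfl (by omega)
      exact ⟨n + 1, Or.inl ⟨h, e, he, he2, Or.inr ⟨Or.inl hc, hn⟩⟩⟩
    · obtain ⟨n, hn⟩ := ih _ _ rfl (by omega)
      exact ⟨n + 1, Or.inl ⟨h, e, he, he2, Or.inr ⟨Or.inr hc, hn⟩⟩⟩
    · have h4 : PInf A e.2.2 := by
        cases τ
        · exact hK _ _ (by omega) h3
        · exact hK _ _ (by omega) h3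
      exact ⟨1, Or.inl ⟨h, e, he, he2, Or.inl ⟨Or.inl hc, h4⟩⟩⟩
    · have h4 : PInf A e.2.2 := by
        cases τ
        · exact hK _ _ (by omega) h3
        · exact hK _ _ (by omega) h3
      exact ⟨1, Or.inl ⟨h, e, he, he2, Or.inl ⟨Or.inr hc, h4⟩⟩⟩
    · have h4 := h3.ne_top
      cases τ <;> exact absurd rfl h4
  | ant v s h h3 ih =>
    rintro i τ rfl hi
    obtain ⟨N, hN⟩ := exists_bound_edges A
      (Q := fun e n => e.1 = v → OkE A (AL A n) e) (fun e he => by
        by_cases he2 : e.1 = v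
        · have h3 := h3 e he he2
          have ih := ih e he he2
          rcases hc : e.2.1 with _ | _ | _ | _ | _ <;> rw [hc] at h3 ih
          · obtain ⟨n, hn⟩ := ih _ _ rfl (by omega)
            exact ⟨n, fun _ => Or.inr ⟨Or.inl hc, hn⟩⟩
          · obtain ⟨n, hn⟩ := ih _ _ rfl (by omega)
            exact ⟨n, fun _ => Or.inr ⟨Or.inr hc, hn⟩⟩
          · have h4 : PInf A e.2.2 := by
              cases τ
              · exact hK _ _ (by omega) h3
              · exact hK _ _ (by omega) h3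
            exact ⟨0, fun _ => Or.inl ⟨Or.inl hc, h4⟩⟩
          · have h4 : PInf A e.2.2 := by
              cases τ
              · exact hK _ _ (by omega) h3
              · exact hK _ _ (by omega) h3
            exact ⟨0, fun _ => Or.inl ⟨Or.inr hc, h4⟩⟩
          · have h4 := h3.ne_top
            cases τ <;> exact absurd rfl h4
        · exact ⟨0, fun h4 => absurd h4 he2⟩)
      (fun e m n hmn h1 h2 => (h1 h2).mono (fun v hv => AL_le hmn hv))
    exact ⟨N + 1, Or.inr ⟨h, hN⟩⟩

end Pool.Agent.R99.Mem
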