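import Pool.Agent.R99.Mem.Neg

namespace Pool.Agent.R99.Mem

variable {A : Arena Col}

open Classical in
/-- largest `i` with `Att A v (L i τ)` -/
noncomputable def Imax (A : Arena Col) (v : A.V) (τ : Bool) : ℕ :=
  if h : ∃ k, ¬ Att A v (D.L k τ) then Nat.find h - 1 else 0

theorem att_L_le {v : A.V} {i j : ℕ} {τ : Bool} (h : i ≤ j) (h2 : Att A v (D.L j τ)) :
    Att A v (D.L i τ) := by
  refine h2.mono _ ?_
  simp only [Dle, and_true]
  omega

theorem Imax_spec {K : ℕ} (hK : ∀ v j, K ≤ j → Att A v (D.P j) → PInf A v) {v : A.V} {τ : Bool}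
    (hv : ¬ ∃ n, AL A n v) (h : ∃ i, Att A v (D.L i τ)) :
    Att A v (D.L (Imax A v τ) τ) ∧ (∀ i, Att A v (D.L i τ) → i ≤ Imax A v τ) ∧
      Imax A v τ < K := by
  classical
  have hb : ∀ i, Att A v (D.L i τ) → i < K := by
    intro i hi
    by_contra h3
    exact hv (AL_of_att hK hi i τ rfl (by omega))
  have hex : ∃ k, ¬ Att A v (D.L k τ) := ⟨K, fun h3 => absurd (hb K h3) (lt_irrefl _)⟩
  have h1 : Imax A v τ = Nat.find hex - 1 := by
    unfold Imax
    rw [dif_pos hex]
  have h2 := Nat.find_spec hex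
  obtain ⟨i₀, hi₀⟩ := h
  have hpos : 0 < Nat.find hex := by
    by_contra h3
    have h4 : Nat.find hex = 0 := by omega
    rw [h4] at h2
    exact h2 (att_L_le (Nat.zero_le _) hi₀)
  have h3 : Att A v (D.L (Nat.find hex - 1) τ) := by
    have := Nat.find_min hex (m := Nat.find hex - 1) (by omega)
    simpa using this
  rw [h1]
  refine ⟨h3, fun i hi => ?_, hb _ h3⟩
  by_contra h4
  exact h2 (att_L_le (by omega) hi)

/-- mode of a monitor state -/
def tp : D → Option Bool
  | D.L _ τ => some τ
  | _ => none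

theorem W₀_neg : GenOK W₀ᶜ 3 := by
  classical
  intro A
  obtain ⟨K, hK⟩ := exists_K A
  let mem : A.Memory (Option Bool) := ⟨some false, fun m e =>
    match m with
    | none => none
    | some τ => tp (stp (D.L (Imax A e.1 τ) τ) e.2.1)⟩
  let σ : A.V → Option Bool → A.Edge := fun v m =>
    match m with
    | none =>
      if h : ∃ e ∈ A.E, e.1 = v ∧ e.2.1 = Col.t ∧
        ∀ j, Att A v (D.P j) → Att A e.2.2 (stp (D.P j) Col.t) then h.choose
      else (A.out v).choose
    | some τ =>
      if h : ∃ n, AL A n v then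
        if h2 : ∃ e ∈ A.E, e.1 = v ∧ OkE A (AL A (Nat.find h - 1)) e then h2.choose
        else (A.out v).choose
      else if h3 : ∃ e ∈ A.E, e.1 = v ∧ Att A e.2.2 (stp (D.L (Imax A v τ) τ) e.2.1) then
        h3.choose
      else (A.out v).choose
  have hσ : ∀ v s, A.prot v → σ v s ∈ A.E ∧ (σ v s).1 = v := by
    intro v s _
    rcases s with _ | τ
    · simp only [σ]
      split_ifs with h
      · exact ⟨h.choose_spec.1, h.choose_spec.2.1⟩
      · exact (A.out v).choose_spec
    · simp only [σ]
      split_ifs with h1 h2 h3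
      · exact ⟨h2.choose_spec.1, h2.choose_spec.2.1⟩
      · exact (A.out v).choose_spec
      · exact ⟨h3.choose_spec.1, h3.choose_spec.2.1⟩
      · exact (A.out v).choose_spec
  obtain ⟨S, hS1, hS2⟩ := exists_strategy mem σ hσ
  obtain ⟨mem', hmem'⟩ := exists_fin mem hS1
  refine ⟨mem', S, hmem', ?_⟩
  rintro u ⟨S', hS'⟩ ρ hρ1 hρ2
  have hu := att_of_wins hS'
  set s : ℕ → D := run stp s0 (fun n => (ρ n).2.1) with hs
  have hsucc : ∀ n, s (n + 1) = stp (s n) (ρ n).2.1 := fun n => rfl
  have hmsucc : ∀ n, mem.state (A.pre ρ (n + 1)) = mem.upd (mem.state (A.pre ρ n)) (ρ n) := by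
    intro n; rw [pre_succ, state_snoc]
  have hnext : ∀ n, (ρ n).2.2 = (ρ (n + 1)).1 := hρ1.2.2
  -- second mode
  have hB : ∀ j n, mem.state (A.pre ρ n) = none → s n = D.P j → Att A (ρ n).1 (D.P j) →
      ∃ n', s n' = D.dead := by
    intro j
    induction j with
    | zero =>
      intro n hm hsn hatt
      have h1 : (ρ n).2.1 = Col.t := by
        by_cases hp : A.prot (ρ n).1
        · have h2 := follows_iff hS2 hρ1 hρ2 n hp
          have h3 := Pmove hp ⟨0, hatt⟩
          rw [hm] at h2
          simp only [σ] at h2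
          rw [dif_pos h3] at h2
          rw [h2]
          exact h3.choose_spec.2.2.1
        · exact (att_P_ant hatt hp (hρ1.2.1 n) rfl).1
      exact ⟨n + 1, by rw [hsucc, hsn, h1]; rfl⟩
    | succ j ih =>
      intro n hm hsn hatt
      have h1 : (ρ n).2.1 = Col.t ∧ Att A (ρ n).2.2 (D.P j) := by
        by_cases hp : A.prot (ρ n).1
        · have h2 := follows_iff hS2 hρ1 hρ2 n hp
          have h3 := Pmove hp ⟨j + 1, hatt⟩
          rw [hm] at h2
          simp only [σ] at h2
          rw [dif_pos h3] at h2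
          rw [h2]
          exact ⟨h3.choose_spec.2.2.1, h3.choose_spec.2.2.2 _ hatt⟩
        · exact att_P_ant hatt hp (hρ1.2.1 n) rfl
      refine ih (n + 1) ?_ ?_ ?_
      · rw [hmsucc, hm]
      · rw [hsucc, hsn, h1.1]; rfl
      · rw [← hnext]; exact h1.2
  -- attractor mode
  have hC : ∀ r n, AL A r (ρ n).1 → (∃ τ, mem.state (A.pre ρ n) = some τ) →
      (∃ i τ, s n = D.L i τ) → ∃ n', s n' = D.dead := by
    intro r
    induction r with
    | zero => intro n h; exact absurd h (by simp [AL])
    | succ r ih =>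
      rintro n hAL ⟨τ, hm⟩ ⟨i, τa, hsn⟩
      have hex : ∃ n', AL A n' (ρ n).1 := ⟨_, hAL⟩
      have hf := Nat.find_spec hex
      have hle := Nat.find_min' hex hAL
      have hok : OkE A (AL A r) (ρ n) := by
        obtain ⟨f, hf'⟩ : ∃ f, Nat.find hex = f + 1 := by
          rcases h : Nat.find hex with _ | f
          · rw [h] at hf; exact absurd hf (by simp [AL])
          · exact ⟨f, rfl⟩
        have hfr : f ≤ r := by omega
        rw [hf'] at hf
        by_cases hp : A.prot (ρ n).1
        · have h2 := follows_iff hS2 hρ1 hρ2 n hp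
          rw [hm] at h2
          simp only [σ] at h2
          rw [dif_pos hex] at h2
          have h3 : ∃ e ∈ A.E, e.1 = (ρ n).1 ∧ OkE A (AL A (Nat.find hex - 1)) e := by
            rw [hf']
            rcases hf with ⟨_, h4⟩ | ⟨h4, _⟩
            · exact h4
            · exact absurd hp h4
          rw [dif_pos h3] at h2
          have h4 := h3.choose_spec.2.2
          rw [← h2] at h4
          refine h4.mono (fun v hv => AL_le ?_ hv)
          omega
        · rcases hf with ⟨h4, _⟩ | ⟨_, h4⟩
          · exact absurd h4 hp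
          · exact (h4 (ρ n) (hρ1.2.1 n) rfl).mono (fun v hv => AL_le hfr hv)
      rcases hok with ⟨hc, hinf⟩ | ⟨hc, hr⟩
      · obtain ⟨j, hj⟩ : ∃ j, s (n + 1) = D.P j := by
          rw [hsucc, hsn]
          rcases hc with hc | hc <;> rw [hc] <;> cases τa <;> exact ⟨_, rfl⟩
        refine hB j (n + 1) ?_ hj ?_
        · rw [hmsucc, hm]
          simp only [mem]
          rcases hc with hc | hc <;> rw [hc] <;> cases τ <;> rfl
        · rw [← hnext]; exact hinf j
      · refine ih (n + 1) ?_ ?_ ?_
        · rw [← hnext]; exact hr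
        · rw [hmsucc, hm]
          simp only [mem]
          rcases hc with hc | hc <;> rw [hc] <;> exact ⟨_, rfl⟩
        · rw [hsucc, hsn]
          rcases hc with hc | hc <;> rw [hc] <;> exact ⟨_, _, rfl⟩
  -- first mode outside the attractor
  have hD : ∀ d n τ, mem.state (A.pre ρ n) = some τ → (∃ i, Att A (ρ n).1 (D.L i τ)) →
      ((¬ ∃ n', AL A n' (ρ n).1) → K - Imax A (ρ n).1 τ ≤ d ∧
        Dle (s n) (D.L (Imax A (ρ n).1 τ) τ)) →
      (∃ i τ, s n = D.L i τ) → ∃ n', s n' = D.dead := by
    intro d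
    induction d with
    | zero =>
      intro n τ hm hatt hd hL
      by_cases hex : ∃ n', AL A n' (ρ n).1
      · obtain ⟨r, hr⟩ := hex
        exact hC r n hr ⟨τ, hm⟩ hL
      · have h1 := Imax_spec hK hex hatt
        have h2 := (hd hex).1
        omega
    | succ d ih =>
      intro n τ hm hatt hd hL
      by_cases hex : ∃ n', AL A n' (ρ n).1
      · obtain ⟨r, hr⟩ := hex
        exact hC r n hr ⟨τ, hm⟩ hL
      · obtain ⟨h1, h2, h3⟩ := Imax_spec hK hex hatt
        obtain ⟨hd1, hd2⟩ := hd hex
        obtain ⟨i, τa, hsn⟩ := hL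
        have hmv : Att A (ρ n).2.2 (stp (D.L (Imax A (ρ n).1 τ) τ) (ρ n).2.1) := by
          by_cases hp : A.prot (ρ n).1
          · have h4 := follows_iff hS2 hρ1 hρ2 n hp
            rw [hm] at h4
            simp only [σ] at h4
            rw [dif_neg hex] at h4
            have h5 : ∃ e ∈ A.E, e.1 = (ρ n).1 ∧
                Att A e.2.2 (stp (D.L (Imax A (ρ n).1 τ) τ) e.2.1) := by
              cases h1 with
              | prot _ _ _ e he he2 h6 => exact ⟨e, he, he2, h6⟩
              | ant _ _ h6 => exact absurd hp h6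
            rw [dif_pos h5] at h4
            have h6 := h5.choose_spec.2.2
            rw [← h4] at h6
            exact h6
          · cases h1 with
            | prot _ _ h6 => exact absurd h6 hp
            | ant _ _ _ h6 => exact h6 (ρ n) (hρ1.2.1 n) rfl
        have hdle : Dle (s (n + 1)) (stp (D.L (Imax A (ρ n).1 τ) τ) (ρ n).2.1) := by
          rw [hsucc]; exact Dle_mono _ hd2
        have hms : mem.state (A.pre ρ (n + 1)) =
            tp (stp (D.L (Imax A (ρ n).1 τ) τ) (ρ n).2.1) := by
          rw [hmsucc, hm]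
        have hsn1 : s (n + 1) = stp (D.L i τa) (ρ n).2.1 := by rw [hsucc, hsn]
        rw [hnext] at hmv
        have hxy : ∀ τ', stp (D.L (Imax A (ρ n).1 τ) τ) (ρ n).2.1 =
            D.L (Imax A (ρ n).1 τ + 1) τ' → (∃ i τ, s (n + 1) = D.L i τ) →
            ∃ n', s n' = D.dead := by
          intro τ' h4 h5
          rw [h4] at hmv hdle hms
          refine ih (n + 1) τ' hms ⟨_, hmv⟩ (fun h6 => ?_) h5
          obtain ⟨-, h7, -⟩ := Imax_spec hK h6 ⟨_, hmv⟩
          have h8 := h7 _ hmv
          refine ⟨by omega, Dle_trans hdle ?_⟩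
          simp only [Dle, and_true]
          omega
        have hpq : ∀ J, stp (D.L (Imax A (ρ n).1 τ) τ) (ρ n).2.1 = D.P J →
            (∃ j, s (n + 1) = D.P j) → ∃ n', s n' = D.dead := by
          rintro J h4 ⟨j, hj⟩
          rw [h4] at hmv hdle hms
          refine hB j (n + 1) hms hj (hmv.mono _ ?_)
          rw [hj] at hdle
          exact hdle
        rcases hc : (ρ n).2.1 with _ | _ | _ | _ | _
        · rw [hc] at hxy hsn1
          exact hxy _ rfl ⟨_, _, hsn1⟩
        · rw [hc] at hxy hsn1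
          exact hxy _ rfl ⟨_, _, hsn1⟩
        · rw [hc] at hpq hsn1
          cases τ <;> cases τa <;> exact hpq _ rfl ⟨_, hsn1⟩
        · rw [hc] at hpq hsn1
          cases τ <;> cases τa <;> exact hpq _ rfl ⟨_, hsn1⟩
        · rw [hc] at hmv
          exfalso
          have h4 := hmv.ne_top
          cases τ <;> exact h4 rfl
  have h0 : Att A (ρ 0).1 (D.L 0 false) := by rw [hρ1.1]; exact hu
  obtain ⟨n, hn⟩ := hD K 0 false rfl ⟨0, h0⟩ (fun h1 => by
    obtain ⟨h2, h3, h4⟩ := Imax_spec hK h1 ⟨0, h0⟩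
    refine ⟨by omega, ?_⟩
    show Dle (D.L 0 false) _
    simp only [Dle, and_true]
    omega) ⟨0, false, rfl⟩
  intro hW
  exact hW n hn

end Pool.Agent.R99.Mem
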