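import Pool.Agent.R99.Mem.Bad

namespace Pool.Agent.R99.Mem

/-- the order of the monitor states -/
def Dle : D → D → Prop
  | D.L i τ, D.L j σ => i < j ∨ (i = j ∧ τ = σ)
  | D.P i, D.P j => i ≤ j
  | _, D.top => True
  | D.dead, _ => True
  | _, _ => False

def Dcls : D → Fin 5
  | D.L _ false => 0
  | D.L _ true => 1
  | D.P _ => 2
  | D.top => 3
  | D.dead => 4

def Didx : D → ℕ
  | D.L i _ => i
  | D.P j => j
  | D.top => 0
  | D.dead => 0

theorem Dle_refl (a : D) : Dle a a := by
  cases a with
  | L i τ => exact Or.inr ⟨rfl, rfl⟩
  | P j => exact le_refl j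
  | top => trivial
  | dead => trivial

theorem Dle_top (a : D) : Dle a D.top := by cases a <;> trivial

theorem Dle_bot (a : D) : Dle D.dead a := by cases a <;> trivial

theorem Dle_trans {a b c : D} (h1 : Dle a b) (h2 : Dle b c) : Dle a c := by
  cases a <;> cases b <;> cases c <;> simp only [Dle] at h1 h2 ⊢
  · rcases h1 with h1 | ⟨h1, h1'⟩
    · rcases h2 with h2 | ⟨h2, h2'⟩
      · left; omega
      · left; omega
    · rcases h2 with h2 | ⟨h2, h2'⟩
      · left; omega
      · right; exact ⟨h1.trans h2, h1'.trans h2'⟩
  · omega

theorem Dle_comp {a b : D} (h : Dcls a = Dcls b) (h2 : Didx a ≤ Didx b) : Dle a b := by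
  cases a with
  | L i τ =>
    cases b with
    | L j σ =>
      cases τ <;> cases σ <;> simp [Dcls] at h
      · simp only [Didx] at h2
        simp only [Dle, and_true]; omega
      · simp only [Didx] at h2
        simp only [Dle, and_true]; omega
    | P j => cases τ <;> simp [Dcls] at h
    | top => cases τ <;> simp [Dcls] at h
    | dead => cases τ <;> simp [Dcls] at h
  | P i =>
    cases b with
    | L j σ => cases σ <;> simp [Dcls] at h
    | P j => exact h2
    | top => simp [Dcls] at h
    | dead => simp [Dcls] at h
  | top =>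
    cases b with
    | L j σ => cases σ <;> simp [Dcls] at h
    | P j => simp [Dcls] at h
    | top => trivial
    | dead => simp [Dcls] at h
  | dead =>
    cases b with
    | L j σ => cases σ <;> simp [Dcls] at h
    | P j => simp [Dcls] at h
    | top => simp [Dcls] at h
    | dead => trivial

theorem Dle_mono {a b : D} (c : Col) (h : Dle a b) : Dle (stp a c) (stp b c) := by
  cases a with
  | L i τ =>
    cases b with
    | L j σ =>
      simp only [Dle] at h
      rcases h with h | ⟨rfl, rfl⟩
      · cases c <;> cases τ <;> cases σ <;> simp only [stp, Dle] <;> omega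
      · exact Dle_refl _
    | P j => exact absurd h (by simp [Dle])
    | top => exact Dle_top _
    | dead => exact absurd h (by simp [Dle])
  | P i =>
    cases b with
    | L j σ => exact absurd h (by simp [Dle])
    | P j =>
      simp only [Dle] at h
      cases c with
      | t =>
        cases i with
        | zero => exact Dle_bot _
        | succ i =>
          cases j with
          | zero => omega
          | succ j => simp only [stp, Dle]; omega
      | x => cases i <;> cases j <;> exact Dle_refl _
      | y => cases i <;> cases j <;> exact Dle_refl _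
      | p => cases i <;> cases j <;> exact Dle_refl _
      | q => cases i <;> cases j <;> exact Dle_refl _
    | top => exact Dle_top _
    | dead => exact absurd h (by simp [Dle])
  | top =>
    cases b with
    | L j σ => exact absurd h (by simp [Dle])
    | P j => exact absurd h (by simp [Dle])
    | top => exact Dle_refl _
    | dead => exact absurd h (by simp [Dle])
  | dead => exact Dle_bot _

theorem Dle_dead {a : D} (h : Dle a D.dead) : a = D.dead := by
  cases a with
  | L i τ => exact absurd h (by simp [Dle])
  | P i => exact absurd h (by simp [Dle])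
  | top => exact absurd h (by simp [Dle])
  | dead => rfl

/-- the ordered monitor -/
def monS : Mon stp 5 where
  le := Dle
  cls := Dcls
  idx := Didx
  trans := Dle_trans
  mono := fun c h => Dle_mono c h
  comp := Dle_comp

/-- the winning condition -/
def W₀ : Set (ℕ → Col) := Safe stp s0 D.dead

theorem W₀_gen : GenOK W₀ 5 := safe_genOK monS (fun _ h => Dle_dead h)

theorem W₀_chr (k : ℕ) : ¬ ChrOK W₀ k := by
  intro h
  obtain ⟨mem, hc, S, hS, hopt⟩ := h (ar id Col.x (nk k) (posk k))
  obtain ⟨h1, h2, h3, h4⟩ := posk_spec k
  have hn : 0 < nk k := by omega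
  obtain ⟨S', hS'⟩ := exists_good (emb := id) (lst := Col.x) (n := nk k) (pos := posk k)
    (step' := stp) (fun _ _ => rfl) (fun d hd => by
      rcases hd with rfl | rfl
      · exact Or.inr rfl
      · exact Or.inr rfl) hn
  obtain ⟨b, p', -, hp', -, hd⟩ := bad_ext (step' := stp) (fun _ _ => rfl) hc hS
    (fun b => (b, (⟨0, by omega⟩ : Fin (3 * nk k + 3)))) (fun _ => [])
    (fun b => cons_nil S _) (fun b => rfl) (fun b => rfl) rfl h1 h2 h3 h4
  obtain ⟨ρ, r1, r2, r3⟩ := extend hp'
  have hwin := hopt (b, (⟨0, by omega⟩ : Fin (3 * nk k + 3))) ⟨S', fun ρ' a1 a2 =>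
    hS' _ rfl ρ' a1 a2⟩
  apply hwin ρ r1 r2 p'.length
  rw [run_pre, r3]
  exact hd

end Pool.Agent.R99.Mem
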