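import Pool.Agent.R99.Mem.Ord
import Pool.Agent.R99.Mem.CoB

namespace Pool.Agent.R99.Mem

/-- the monitor with the reset colour `none` -/
def stepR : D → Option Col → D
  | _, none => s0
  | s, some c => stp s c

def monR : Mon stepR 5 where
  le := Dle
  cls := Dcls
  idx := Didx
  trans := Dle_trans
  mono := fun c h => by
    cases c with
    | none => exact Dle_refl _
    | some c => exact Dle_mono c h
  comp := Dle_comp

/-- the prefix-independent winning condition -/
def W₁ : Set (ℕ → Option Col) := Cob stepR s0 D.dead none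

theorem W₁_gen : GenOK W₁ 5 := cob_genOK monR (fun _ h => Dle_dead h) (fun _ => rfl)

theorem run_add (f : ℕ → Option Col) (k m : ℕ) (hm : f (m + k) = none) (n : ℕ) (hn : m < n) :
    run stepR s0 (fun n => f (n + k)) n = run stepR s0 f (n + k) := by
  obtain ⟨d, rfl⟩ : ∃ d, n = m + 1 + d := ⟨n - (m + 1), by omega⟩
  clear hn
  induction d with
  | zero =>
    show stepR _ (f (m + k)) = _
    rw [add_zero, show m + 1 + k = (m + k) + 1 by ring]
    show _ = stepR _ (f (m + k))
    rw [hm]; rfl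
  | succ d ih =>
    show stepR (run stepR s0 (fun n => f (n + k)) (m + 1 + d)) (f (m + 1 + d + k)) = _
    rw [ih, show m + 1 + (d + 1) + k = (m + 1 + d + k) + 1 by ring]
    rfl

/-- prefix-independence -/
theorem W₁_shift (f : ℕ → Option Col) (k : ℕ) : f ∈ W₁ ↔ (fun n => f (n + k)) ∈ W₁ := by
  by_cases h : ∃ m, f (m + k) = none
  · obtain ⟨m, hm⟩ := h
    have hrun := run_add f k m hm
    constructor
    · rintro ⟨N, hN⟩
      refine ⟨N + m + 1, fun n hn h2 => hN (n + k) (by omega) ?_⟩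
      rw [hrun n (by omega)] at h2
      exact h2
    · rintro ⟨N, hN⟩
      refine ⟨N + m + 1 + k, fun n hn h2 => ?_⟩
      obtain ⟨n', rfl⟩ : ∃ n', n = n' + k := ⟨n - k, by omega⟩
      refine hN n' (by omega) ?_
      rw [hrun n' (by omega)]
      exact h2
  · push Not at h
    constructor
    · intro _
      exact ⟨0, fun n _ h2 => h n h2.2⟩
    · intro _
      refine ⟨k, fun n hn h2 => ?_⟩
      obtain ⟨n', rfl⟩ : ∃ n', n = n' + k := ⟨n - k, by omega⟩
      exact h n' h2.2

theorem exists_good' {n : ℕ} {pos : Bool → ℕ} (hn : 0 < n) :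
    ∃ S : (ar some none n pos).Strategy, ∀ u : (ar some none n pos).V,
      (u.2 : ℕ) = 3 * n + 2 → ∀ ρ, (ar some none n pos).IsPlay u ρ →
      (ar some none n pos).Follows S u ρ →
      ∀ k, run stepR s0 (fun k => (ρ k).2.1) k ≠ D.dead := by
  let A := ar some none n pos
  let mem : A.Memory Bool := ⟨false, fun m e => if (e.1.2 : ℕ) < n then e.1.1 else m⟩
  let σ : A.V → Bool → A.Edge := fun v m => outE some none n pos (good n pos m) v
  obtain ⟨S, -, hS⟩ := exists_strategy mem σ
    (fun v m _ => outE_mem some none n pos (good n pos m) (good_cases n pos m) v)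
  refine ⟨S, fun u hu ρ h1 h2 => ?_⟩
  have inv : ∀ k, Inv n pos (ρ (k + 1)).1 (mem.state (A.pre ρ (k + 1)))
      (run stepR s0 (fun k => (ρ k).2.1) (k + 1)) := by
    intro k
    induction k with
    | zero =>
      have h3 : ((ρ 0).1.2 : ℕ) = 3 * n + 2 := by rw [h1.1]; exact hu
      have h4 : (ρ 0).2.1 = none ∧ ((ρ 0).2.2.2 : ℕ) = 0 := by
        rcases h1.2.1 0 with ⟨a1, _⟩ | ⟨a1, _⟩ | ⟨_, a1, _⟩ | ⟨_, a2, a3⟩
        · omega
        · omega
        · omega
        · exact ⟨a2, a3⟩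
      have h5 : ((ρ (0 + 1)).1.2 : ℕ) = 0 := by rw [← h1.2.2 0]; exact h4.2
      have h6 : run stepR s0 (fun k => (ρ k).2.1) (0 + 1) = s0 := by
        show stepR _ (ρ 0).2.1 = s0
        rw [h4.1]; rfl
      rw [h6]
      refine ⟨fun _ => Or.inl ?_, fun h4 => by omega, fun h4 => by omega⟩
      rw [h5, ty_zero]
    | succ k ih =>
      have h3 := inv_step (emb := some) (lst := none) (step' := stepR) (fun _ _ => rfl)
        (fun _ _ => Or.inl rfl) hn (h1.2.1 (k + 1)) ih (fun h4 => ?_)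
      · rw [← h1.2.2 (k + 1), pre_succ, state_snoc]
        exact h3
      · have h5 := follows_iff hS h1 h2 (k + 1)
          (by show ((ρ (k + 1)).1.2 : ℕ) ≠ 3 * n + 2; omega)
        have h6 : (ρ (k + 1)).2.1 = (σ (ρ (k + 1)).1 (mem.state (A.pre ρ (k + 1)))).2.1 := by
          rw [← h5]
        rw [h6]
        simp only [σ, outE]
        rw [dif_neg (by omega), dif_pos h4]
  intro k hk
  cases k with
  | zero => exact absurd hk (by simp [run])
  | succ k =>
    have h3 := inv k
    rw [hk] at h3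
    obtain ⟨a1, a2, a3⟩ := h3
    rcases lt_trichotomy ((ρ (k + 1)).1.2 : ℕ) n with h | h | h
    · rcases a1 h with h' | h' <;> exact absurd h' (by simp)
    · rcases a2 h with h' | h' <;> exact absurd h' (by simp)
    · rcases a3 h with h' | h' <;> exact absurd h' (by simp)

theorem W₁_chr (k : ℕ) : ¬ ChrOK W₁ k := by
  intro h
  obtain ⟨mem, hc, S, hS, hopt⟩ := h (ar some none (nk k) (posk k))
  obtain ⟨h1, h2, h3, h4⟩ := posk_spec k
  have hn : 0 < nk k := by omega
  obtain ⟨S', hS'⟩ := exists_good' (n := nk k) (pos := posk k) hn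
  let A := ar some none (nk k) (posk k)
  let u₀ : A.V := (false, (⟨3 * nk k + 2, by omega⟩ : Fin (3 * nk k + 3)))
  have hwin : A.WinsFrom W₁ S u₀ :=
    hopt u₀ ⟨S', fun ρ a1 a2 => ⟨0, fun n _ hb => hS' u₀ rfl ρ a1 a2 n hb.1⟩⟩
  have next : ∀ p, Cons S u₀ p → A.last u₀ p = u₀ → ∃ p', p <+: p' ∧ Cons S u₀ p' ∧
      A.last u₀ p' = u₀ ∧ runL stepR s0 p' = D.dead ∧
      (runL stepR s0 p = D.dead → EvAfter stepR s0 D.dead none p.length p') := by
    intro p hp hl
    let eb : Bool → A.Edge := fun b => (u₀, none, (b, (⟨0, by omega⟩ : Fin (3 * nk k + 3))))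
    have heb : ∀ b, eb b ∈ A.E := fun b => Or.inr (Or.inr (Or.inr ⟨rfl, rfl, rfl⟩))
    obtain ⟨b, p', q1, q2, q3, q4⟩ := bad_ext (step' := stepR) (fun _ _ => rfl) hc hS
      (fun _ => u₀) (fun b => p ++ [eb b])
      (fun b => by
        rw [cons_snoc]
        exact ⟨hp, heb b, hl.symm, fun h5 => absurd rfl (by rw [hl] at h5; exact h5)⟩)
      (fun b => last_snoc _ _ _) (fun b => by rw [runL_snoc]; rfl)
      (by rw [state_snoc, state_snoc]; exact hc _ _ (heb _) _ (heb _) rfl) h1 h2 h3 h4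
    refine ⟨p', (List.prefix_append _ _).trans q1, q2, q3, q4, fun hd => ?_⟩
    have hlen : p.length < p'.length := by
      have := q1.length_le
      simp at this
      omega
    refine ⟨p.length, le_rfl, hlen, ?_, ?_⟩
    · have h5 : p'.take p.length = p := by
        obtain ⟨t, ht⟩ := (List.prefix_append p [eb b]).trans q1
        rw [← ht]
        simp
      rw [h5]; exact hd
    · have h5 := q1.getElem (i := p.length) (by simp)
      rw [← h5]
      simp [eb]
  let T := {p : List A.Edge // Cons S u₀ p ∧ A.last u₀ p = u₀ ∧ runL stepR s0 p = D.dead}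
  have nextT : ∀ t : T, ∃ t' : T, t.1 <+: t'.1 ∧ EvAfter stepR s0 D.dead none t.1.length t'.1 := by
    rintro ⟨p, a1, a2, a3⟩
    obtain ⟨p', b1, b2, b3, b4, b5⟩ := next p a1 a2
    exact ⟨⟨p', b2, b3, b4⟩, b1, b5 a3⟩
  choose g hg using nextT
  obtain ⟨p₁, -, c2, c3, c4, -⟩ := next [] (cons_nil S u₀) rfl
  let t : ℕ → T := fun n => Nat.rec ⟨p₁, c2, c3, c4⟩ (fun _ t => g t) n
  obtain ⟨ρ, r1, r2, r3⟩ := chain_play (step := stepR) (s₀ := s0) (dead := D.dead) (r := none)
    (fun n => (t n).1) (fun n => (t n).2.1) (fun n => hg (t n))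
  obtain ⟨N, hN⟩ := hwin ρ r1 r2
  obtain ⟨n, hn1, hn2⟩ := r3 N
  exact hN n hn1 hn2

end Pool.Agent.R99.Mem
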