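import Pool.Agent.R99.Mem.Basic

namespace Pool.Agent.R99.Mem

variable {C D : Type}

/-- the sequence of monitor states -/
def run (step : D → C → D) (s₀ : D) (f : ℕ → C) : ℕ → D
  | 0 => s₀
  | n + 1 => step (run step s₀ f n) (f n)

theorem run_eq_of_eq {step : D → C → D} {s₀ : D} {f g : ℕ → C} {n : ℕ}
    (h : ∀ k < n, f k = g k) : run step s₀ f n = run step s₀ g n := by
  induction n with
  | zero => rfl
  | succ n ih =>
    simp only [run]
    rw [ih (fun k hk => h k (by omega)), h n (by omega)]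

/-- monitor state after a finite path -/
def runL {A : Arena C} (step : D → C → D) (s₀ : D) (p : List A.Edge) : D :=
  p.foldl (fun s e => step s e.2.1) s₀

theorem runL_snoc {A : Arena C} (step : D → C → D) (s₀ : D) (p : List A.Edge) (e : A.Edge) :
    runL step s₀ (p ++ [e]) = step (runL step s₀ p) e.2.1 := by
  simp [runL]

theorem run_pre {A : Arena C} (step : D → C → D) (s₀ : D) (ρ : ℕ → A.Edge) (n : ℕ) :
    run step s₀ (fun n => (ρ n).2.1) n = runL step s₀ (A.pre ρ n) := by
  induction n with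
  | zero => rfl
  | succ n ih => rw [pre_succ, runL_snoc, ← ih]; rfl

/-- an ordered monitor: transitions are monotone, and the states are divided into `K` classes, each
of them well-ordered by the index -/
structure Mon (step : D → C → D) (K : ℕ) where
  le : D → D → Prop
  cls : D → Fin K
  idx : D → ℕ
  trans : ∀ {a b c}, le a b → le b c → le a c
  mono : ∀ {a b} c, le a b → le (step a c) (step b c)
  comp : ∀ {a b}, cls a = cls b → idx a ≤ idx b → le a b

theorem Mon.refl {step : D → C → D} {K : ℕ} (O : Mon step K) (a : D) : O.le a a :=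
  O.comp rfl le_rfl

/-- Antagonist can force the state `dead` -/
inductive Lose (A : Arena C) (step : D → C → D) (dead : D) : A.V → D → Prop
  | dead (v : A.V) : Lose A step dead v dead
  | prot (v : A.V) (s : D) (h : A.prot v)
      (h2 : ∀ e ∈ A.E, e.1 = v → Lose A step dead e.2.2 (step s e.2.1)) : Lose A step dead v s
  | ant (v : A.V) (s : D) (h : ¬ A.prot v) (e : A.Edge) (he : e ∈ A.E) (he2 : e.1 = v)
      (h2 : Lose A step dead e.2.2 (step s e.2.1)) : Lose A step dead v s

theorem Lose.mono {A : Arena C} {step : D → C → D} {dead : D} {K : ℕ} (O : Mon step K)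
    (hd : ∀ s, O.le s dead → s = dead) {v : A.V} {s : D} (h : Lose A step dead v s) :
    ∀ s', O.le s' s → Lose A step dead v s' := by
  induction h with
  | dead v => intro s' hs; rw [hd s' hs]; exact Lose.dead v
  | prot v s h _ ih =>
    intro s' hs
    exact Lose.prot v s' h (fun e he hv => ih e he hv _ (O.mono _ hs))
  | ant v s h e he he2 _ ih =>
    intro s' hs
    exact Lose.ant v s' h e he he2 (ih _ (O.mono _ hs))

theorem Lose.path {A : Arena C} {step : D → C → D} {dead : D} {S : A.Strategy} {u : A.V}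
    {s₀ : D} {v : A.V} {s : D} (h : Lose A step dead v s) :
    ∀ p, Cons S u p → A.last u p = v → runL step s₀ p = s →
      ∃ p', Cons S u p' ∧ runL step s₀ p' = dead := by
  induction h with
  | dead v => intro p hp _ h2; exact ⟨p, hp, h2⟩
  | prot v s h _ ih =>
    intro p hp h1 h2
    have h3 := S.legal u p hp.isPath (by rw [h1]; exact h)
    refine ih (S.move u p) h3.1 (by rw [h3.2, h1]) (p ++ [S.move u p]) ?_ ?_ ?_
    · rw [cons_snoc]; exact ⟨hp, h3.1, h3.2, fun _ => rfl⟩
    · rw [last_snoc]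
    · rw [runL_snoc, h2]
  | ant v s h e he he2 _ ih =>
    intro p hp h1 h2
    refine ih (p ++ [e]) ?_ ?_ ?_
    · rw [cons_snoc]; exact ⟨hp, he, by rw [he2, h1], fun h3 => absurd (h1 ▸ h3) h⟩
    · rw [last_snoc]
    · rw [runL_snoc, h2]

/-- the condition: the state `dead` is never reached -/
def Safe (step : D → C → D) (s₀ dead : D) : Set (ℕ → C) :=
  {f | ∀ n, run step s₀ f n ≠ dead}

theorem not_lose {A : Arena C} {step : D → C → D} {s₀ dead : D} {S : A.Strategy} {u : A.V}
    (h : A.WinsFrom (Safe step s₀ dead) S u) : ¬ Lose A step dead u s₀ := by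
  intro hl
  obtain ⟨p, hp, hp2⟩ := hl.path (S := S) (s₀ := s₀) [] (cons_nil S u) rfl rfl
  obtain ⟨ρ, h1, h2, h3⟩ := extend hp
  apply h ρ h1 h2 p.length
  rw [run_pre, h3, hp2]

open Classical in
/-- safety conditions recognised by an ordered monitor with `K` classes -/
theorem safe_genOK {step : D → C → D} {s₀ dead : D} {K : ℕ} (O : Mon step K)
    (hd : ∀ s, O.le s dead → s = dead) :
    GenOK (Safe step s₀ dead) K := by
  intro A
  let win : A.V → D → Prop := fun v s => ¬ Lose A step dead v s
  have hmin : ∀ v m, (∃ s, O.cls s = m ∧ win v s) → ∃ s, O.cls s = m ∧ win v s ∧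
      ∀ s', O.cls s' = m → win v s' → O.le s s' := by
    rintro v m ⟨s, hs1, hs2⟩
    have hex : ∃ n, ∃ s, O.cls s = m ∧ win v s ∧ O.idx s = n := ⟨_, s, hs1, hs2, rfl⟩
    obtain ⟨s', h1, h2, h3⟩ := Nat.find_spec hex
    refine ⟨s', h1, h2, fun s'' h4 h5 => O.comp (h1.trans h4.symm) ?_⟩
    rw [h3]
    exact Nat.find_min' hex ⟨s'', h4, h5, rfl⟩
  let rep : A.V → Fin K → D := fun v m =>
    if h : ∃ s, O.cls s = m ∧ win v s then (hmin v m h).choose else dead
  have hrep : ∀ v m, (∃ s, O.cls s = m ∧ win v s) → win v (rep v m) ∧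
      ∀ s', O.cls s' = m → win v s' → O.le (rep v m) s' := by
    intro v m h
    have h1 : rep v m = (hmin v m h).choose := by simp only [rep]; rw [dif_pos h]
    rw [h1]
    exact ⟨(hmin v m h).choose_spec.2.1, (hmin v m h).choose_spec.2.2⟩
  let mem : A.Memory (Fin K) := ⟨O.cls s₀, fun m e => O.cls (step (rep e.1 m) e.2.1)⟩
  let σ : A.V → Fin K → A.Edge := fun v m =>
    if h : ∃ e ∈ A.E, e.1 = v ∧ win e.2.2 (step (rep v m) e.2.1) then h.choose
    else (A.out v).choose
  have hσ : ∀ v s, A.prot v → σ v s ∈ A.E ∧ (σ v s).1 = v := by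
    intro v s _
    simp only [σ]
    split_ifs with h
    · exact ⟨h.choose_spec.1, h.choose_spec.2.1⟩
    · exact (A.out v).choose_spec
  obtain ⟨S, hS1, hS2⟩ := exists_strategy mem σ hσ
  refine ⟨mem, S, hS1, ?_⟩
  rintro u ⟨S', hS'⟩ ρ hρ1 hρ2
  have hu := not_lose hS'
  -- the invariant
  have inv : ∀ n, (∃ s, O.cls s = mem.state (A.pre ρ n) ∧ win (ρ n).1 s) ∧
      O.le (rep (ρ n).1 (mem.state (A.pre ρ n))) (runL step s₀ (A.pre ρ n)) := by
    intro n
    induction n with
    | zero =>
      have h1 : win (ρ 0).1 s₀ := by rw [hρ1.1]; exact hu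
      exact ⟨⟨s₀, rfl, h1⟩, (hrep (ρ 0).1 _ ⟨s₀, rfl, h1⟩).2 s₀ rfl h1⟩
    | succ n ih =>
      obtain ⟨ih1, ih2⟩ := ih
      have h1 := (hrep _ _ ih1).1
      have h2 : win (ρ n).2.2 (step (rep (ρ n).1 (mem.state (A.pre ρ n))) (ρ n).2.1) := by
        by_cases hp : A.prot (ρ n).1
        · have h3 : ∃ e ∈ A.E, e.1 = (ρ n).1 ∧
              win e.2.2 (step (rep (ρ n).1 (mem.state (A.pre ρ n))) e.2.1) := by
            by_contra h4
            push Not at h4
            apply h1
            refine Lose.prot _ _ hp (fun e he hv => ?_)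
            have := h4 e he hv
            simp only [win, not_not] at this
            exact this
          have h5 := follows_iff hS2 hρ1 hρ2 n hp
          simp only [σ] at h5
          rw [dif_pos h3] at h5
          have h6 := h3.choose_spec.2.2
          rw [← h5] at h6
          exact h6
        · intro h3
          exact h1 (Lose.ant _ _ hp (ρ n) (hρ1.2.1 n) rfl h3)
      have h3 : mem.state (A.pre ρ (n + 1)) =
          O.cls (step (rep (ρ n).1 (mem.state (A.pre ρ n))) (ρ n).2.1) := by
        rw [pre_succ, state_snoc]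
      have h4 : win (ρ (n + 1)).1 (step (rep (ρ n).1 (mem.state (A.pre ρ n))) (ρ n).2.1) := by
        rw [← hρ1.2.2 n]; exact h2
      refine ⟨⟨_, h3.symm, h4⟩, ?_⟩
      rw [pre_succ, runL_snoc, ← pre_succ]
      exact O.trans ((hrep _ _ ⟨_, h3.symm, h4⟩).2 _ h3.symm h4) (O.mono _ ih2)
  intro n hn
  rw [run_pre] at hn
  obtain ⟨h1, h2⟩ := inv n
  rw [hn] at h2
  have h3 := (hrep _ _ h1).1
  rw [hd _ h2] at h3
  exact h3 (Lose.dead _)

end Pool.Agent.R99.Mem
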