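import Pool.Agent.R99.Mem.Safe

namespace Pool.Agent.R99.Mem

/-- the basic colours -/
inductive Col
  | x | y | p | q | t
  deriving DecidableEq, Fintype

/-- the monitor states -/
inductive D
  | L (i : ℕ) (τ : Bool)
  | P (j : ℕ)
  | top
  | dead

/-- `i` is a power of two -/
def pw (i : ℕ) : Bool := decide (2 ^ Nat.log 2 i = i)

/-- the monitor -/
def stp : D → Col → D
  | D.L i τ, Col.x => D.L (i + 1) (xor τ (pw i))
  | D.L i τ, Col.y => D.L (i + 1) τ
  | D.L i false, Col.p => D.P (2 * i + 1)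
  | D.L i true, Col.p => D.P (2 * i)
  | D.L i false, Col.q => D.P (2 * i)
  | D.L i true, Col.q => D.P (2 * i + 1)
  | D.L _ _, Col.t => D.top
  | D.P (j + 1), Col.t => D.P j
  | D.P 0, Col.t => D.dead
  | D.P _, _ => D.top
  | D.top, _ => D.top
  | D.dead, _ => D.dead

/-- initial state -/
abbrev s0 : D := D.L 0 false

/-! ### Combinatorics of the two words -/

theorem pw_pow (a : ℕ) : pw (2 ^ a) = true := by
  simp [pw, Nat.log_pow]

theorem pw_add {a d : ℕ} (h0 : 0 < d) (h : d < 2 ^ a) : pw (2 ^ a + d) = false := by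
  have h1 : Nat.log 2 (2 ^ a + d) = a := by
    apply Nat.log_eq_of_pow_le_of_lt_pow
    · omega
    · rw [pow_succ]; omega
  simp only [pw, h1, decide_eq_false_iff_not]
  omega

/-- the letter at position `s` of the word with a single `y`, at position `pos` -/
def w (pos s : ℕ) : Col := if s = pos then Col.y else Col.x

/-- type after reading `x ^ s` -/
def T : ℕ → Bool
  | 0 => false
  | s + 1 => xor (T s) (pw s)

/-- type after reading the first `s` letters of the word -/
def ty (pos s : ℕ) : Bool := if s ≤ pos then T s else xor (T s) (pw pos)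

theorem ty_zero (pos : ℕ) : ty pos 0 = false := by simp [ty, T]

theorem stp_w (pos s : ℕ) : stp (D.L s (ty pos s)) (w pos s) = D.L (s + 1) (ty pos (s + 1)) := by
  unfold w ty
  rcases lt_trichotomy s pos with h | h | h
  · have a1 : s ≤ pos := h.le
    have a2 : ¬ s = pos := by omega
    have a3 : s + 1 ≤ pos := h
    simp only [a1, a2, a3, if_true, if_false]
    rfl
  · subst h
    have a3 : ¬ s + 1 ≤ s := by omega
    simp only [le_refl, a3, if_true, if_false, stp, T]
    congr 1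
    cases T s <;> cases pw s <;> rfl
  · have a1 : ¬ s ≤ pos := by omega
    have a2 : ¬ s = pos := by omega
    have a3 : ¬ s + 1 ≤ pos := by omega
    simp only [a1, a2, a3, if_false, stp, T]
    congr 1
    cases T s <;> cases pw s <;> cases pw pos <;> rfl

theorem iter_periodic {k : ℕ} (g : Fin k → Fin k) (m : Fin k) (a : ℕ) (ha : k ≤ a) :
    g^[a + k.factorial] m = g^[a] m := by
  have hk : 0 < k := Fin.pos m
  obtain ⟨s, t, hst, heq⟩ : ∃ s t : Fin (k + 1), s ≠ t ∧ g^[s] m = g^[t] m := by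
    have := Fintype.exists_ne_map_eq_of_card_lt (fun s : Fin (k + 1) => g^[s] m) (by simp)
    obtain ⟨s, t, h1, h2⟩ := this
    exact ⟨s, t, h1, h2⟩
  wlog hlt : s < t generalizing s t
  · exact this t s hst.symm heq.symm (lt_of_le_of_ne (not_lt.1 hlt) hst.symm)
  have hlt' : (s : ℕ) < (t : ℕ) := hlt
  have ht := t.2
  set d := (t : ℕ) - s with hd
  have h1 : ∀ b, (s : ℕ) ≤ b → g^[b + d] m = g^[b] m := by
    intro b hb
    have e1 : b + d = (b - s) + t := by omega
    have e2 : b = (b - s) + s := by omega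
    rw [e1, Function.iterate_add_apply, ← heq, ← Function.iterate_add_apply]
    congr 1
    rw [← e2]
  have h2 : ∀ c b, (s : ℕ) ≤ b → g^[b + c * d] m = g^[b] m := by
    intro c
    induction c with
    | zero => intro b _; simp
    | succ c ih =>
      intro b hb
      rw [Nat.succ_mul, ← add_assoc, h1 _ (by omega), ih b hb]
  obtain ⟨c, hc⟩ : d ∣ k.factorial := Nat.dvd_factorial (by omega) (by omega)
  rw [hc, mul_comm, h2 c a (by omega)]

/-! ### The arena -/

section arena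

variable {C : Type} [Finite C] (emb : Col → C) (lst : C) (n : ℕ) (pos : Bool → ℕ)

/-- the node of the common part with number `s` -/
def nd (b : Bool) (s : ℕ) (h : s < 3 * n + 3) : Bool × Fin (3 * n + 3) :=
  (if s < n then b else false, ⟨s, h⟩)

/-- the edge relation -/
def edges : Set ((Bool × Fin (3 * n + 3)) × C × (Bool × Fin (3 * n + 3))) :=
  {e | ((e.1.2 : ℕ) < n ∧ e.2.1 = emb (w (pos e.1.1) e.1.2) ∧
          (e.2.2.2 : ℕ) = e.1.2 + 1 ∧ e.2.2.1 = (if (e.1.2 : ℕ) + 1 < n then e.1.1 else false)) ∨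
       ((e.1.2 : ℕ) = n ∧ (e.2.1 = emb Col.p ∨ e.2.1 = emb Col.q) ∧
          (e.2.2.2 : ℕ) = n + 1 ∧ e.2.2.1 = false) ∨
       (n < (e.1.2 : ℕ) ∧ (e.1.2 : ℕ) < 3 * n + 2 ∧ e.2.1 = emb Col.t ∧
          (e.2.2.2 : ℕ) = e.1.2 + 1 ∧ e.2.2.1 = false) ∨
       ((e.1.2 : ℕ) = 3 * n + 2 ∧ e.2.1 = lst ∧ (e.2.2.2 : ℕ) = 0)}

/-- a canonical outgoing edge; `c` is the colour used at the hub -/
def outE (c : Col) (v : Bool × Fin (3 * n + 3)) :
    (Bool × Fin (3 * n + 3)) × C × (Bool × Fin (3 * n + 3)) :=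
  if h1 : (v.2 : ℕ) < n then
    (v, emb (w (pos v.1) v.2), (if (v.2 : ℕ) + 1 < n then v.1 else false, ⟨v.2 + 1, by omega⟩))
  else if h2 : (v.2 : ℕ) = n then (v, emb c, (false, ⟨n + 1, by omega⟩))
  else if h3 : (v.2 : ℕ) < 3 * n + 2 then (v, emb Col.t, (false, ⟨v.2 + 1, by omega⟩))
  else (v, lst, (false, ⟨0, by omega⟩))

omit [Finite C] in
theorem outE_mem (c : Col) (hc : c = Col.p ∨ c = Col.q) (v : Bool × Fin (3 * n + 3)) :
    outE emb lst n pos c v ∈ edges emb lst n pos ∧ (outE emb lst n pos c v).1 = v := by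
  have hv := v.2.2
  unfold outE
  split_ifs with h1 h2 h3 h4
  · refine ⟨Or.inl ⟨h1, rfl, rfl, ?_⟩, rfl⟩
    simp [h2]
  · refine ⟨Or.inl ⟨h1, rfl, rfl, ?_⟩, rfl⟩
    simp [h2]
  · refine ⟨Or.inr (Or.inl ⟨h3, ?_, rfl, rfl⟩), rfl⟩
    rcases hc with rfl | rfl
    · exact Or.inl rfl
    · exact Or.inr rfl
  · exact ⟨Or.inr (Or.inr (Or.inl ⟨by simp only; omega, h4, rfl, rfl, rfl⟩)), rfl⟩
  · exact ⟨Or.inr (Or.inr (Or.inr ⟨by simp only; omega, rfl, rfl⟩)), rfl⟩

/-- the arena -/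
def ar : Arena C where
  V := Bool × Fin (3 * n + 3)
  finV := inferInstance
  neV := ⟨(false, ⟨0, by omega⟩)⟩
  prot := fun v => (v.2 : ℕ) ≠ 3 * n + 2
  E := edges emb lst n pos
  finE := Set.toFinite _
  out := fun v => ⟨_, outE_mem emb lst n pos Col.p (Or.inl rfl) v⟩

end arena

end Pool.Agent.R99.Mem
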